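import Pool.Agent.Y694.T6.Stm

/-!
# Union bound over balls, countability, no ties
-/

set_option autoImplicit false

open MeasureTheory ProbabilityTheory Filter Topology
open scoped ENNReal

namespace Pool.Agent.Y694.T6

variable {V : Type*}

theorem nbf (G : SimpleGraph V) (hdeg : Deg6 G) (v : V) : (G.neighborSet v).Finite := by
  apply Set.finite_of_ncard_ne_zero
  rw [hdeg v]
  norm_num

open Classical in
/-- The ball as a finite set. -/
noncomputable def bl (G : SimpleGraph V) (hdeg : Deg6 G) (v : V) : ℕ → Finset V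
  | 0 => {v}
  | m + 1 => (bl G hdeg v m).biUnion fun u => insert u (nbf G hdeg u).toFinset

theorem card_bl (G : SimpleGraph V) (hdeg : Deg6 G) (v : V) (m : ℕ) :
    (bl G hdeg v m).card ≤ 7 ^ m := by
  classical
  induction m with
  | zero => simp [bl]
  | succ m ih =>
    rw [bl]
    refine le_trans Finset.card_biUnion_le ?_
    calc ∑ u ∈ bl G hdeg v m, (insert u (nbf G hdeg u).toFinset).card
        ≤ ∑ _u ∈ bl G hdeg v m, 7 := by
          apply Finset.sum_le_sum
          intro u _
          refine le_trans (Finset.card_insert_le _ _) ?_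
          rw [← Set.ncard_eq_toFinset_card _ (nbf G hdeg u), hdeg u]
      _ = (bl G hdeg v m).card * 7 := by rw [Finset.sum_const, smul_eq_mul]
      _ ≤ 7 ^ m * 7 := Nat.mul_le_mul_right _ ih
      _ = 7 ^ (m + 1) := (pow_succ 7 m).symm

theorem mem_bl (G : SimpleGraph V) (hc : G.Connected) (hdeg : Deg6 G) (v : V) (m : ℕ) :
    ∀ u, G.dist v u ≤ m → u ∈ bl G hdeg v m := by
  classical
  induction m with
  | zero =>
    intro u hu
    have h0 : G.dist v u = 0 := by omega
    have h1 : v = u := hc.dist_eq_zero_iff.1 h0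
    rw [h1]
    simp [bl]
  | succ m ih =>
    intro u hu
    rw [bl, Finset.mem_biUnion]
    by_cases h0 : G.dist v u ≤ m
    · exact ⟨u, ih u h0, Finset.mem_insert_self _ _⟩
    · have h1 : G.dist u v = m + 1 := by rw [SimpleGraph.dist_comm]; omega
      obtain ⟨p, hp⟩ := hc.exists_walk_length_eq_dist u v
      cases p with
      | nil =>
        rw [SimpleGraph.Walk.length_nil] at hp
        omega
      | cons hadj q =>
        rename_i c
        have hq : q.length = m := by
          simp only [SimpleGraph.Walk.length_cons] at hp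
          omega
        have hcv : G.dist v c ≤ m := by
          rw [SimpleGraph.dist_comm, ← hq]
          exact SimpleGraph.dist_le q
        refine ⟨c, ih c hcv, ?_⟩
        apply Finset.mem_insert_of_mem
        rw [Set.Finite.mem_toFinset]
        exact hadj.symm

theorem t_ballUnion (G : SimpleGraph V) (hc : G.Connected) (hdeg : Deg6 G) : BallUnion G := by
  intro Q a hQ v m
  calc P V {ω | ∃ u, G.dist v u ≤ m ∧ Q ω u}
      ≤ P V (⋃ u ∈ bl G hdeg v m, {ω | Q ω u}) := by
        apply measure_mono
        rintro ω ⟨u, hu, hq⟩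
        exact Set.mem_biUnion (x := u) (by exact mem_bl G hc hdeg v m u hu) hq
    _ ≤ ∑ u ∈ bl G hdeg v m, P V {ω | Q ω u} := measure_biUnion_finset_le _ _
    _ ≤ ∑ _u ∈ bl G hdeg v m, a := Finset.sum_le_sum fun u _ => hQ u
    _ = ((bl G hdeg v m).card : ℝ≥0∞) * a := by rw [Finset.sum_const, nsmul_eq_mul]
    _ ≤ 7 ^ m * a := by
        gcongr
        exact_mod_cast card_bl G hdeg v m

theorem t_countable (G : SimpleGraph V) (hc : G.Connected) (hdeg : Deg6 G) : Countable V := by
  obtain ⟨v⟩ := hc.nonempty
  have h : (Set.univ : Set V) ⊆ ⋃ m : ℕ, ((bl G hdeg v m : Finset V) : Set V) := by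
    intro u _
    rw [Set.mem_iUnion]
    exact ⟨G.dist v u, mem_bl G hc hdeg v _ u le_rfl⟩
  have h2 : (Set.univ : Set V).Countable :=
    (Set.countable_iUnion fun m => (bl G hdeg v m).countable_toSet).mono h
  exact Set.countable_univ_iff.1 h2

theorem t_noTies (V : Type*) [Countable V] : NoTies V := by
  classical
  unfold NoTies
  rw [ae_all_iff]
  intro u
  rw [ae_all_iff]
  intro v
  by_cases huv : u = v
  · exact Eventually.of_forall fun ω h => absurd huv h
  have key : ∀ᵐ ω ∂(P V), ω u ≠ ω v := by
    have hind : IndepFun (fun ω : V → ℝ => ω u) (fun ω : V → ℝ => ω v) (P V) := by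
      have h1 : iIndepFun (fun (i : V) (ω : V → ℝ) => ω i) (P V) := by
        have := iIndepFun_infinitePi (P := fun _ : V => lab) (X := fun (_ : V) (x : ℝ) => x)
          (fun _ => measurable_id)
        exact this
      exact h1.indepFun huv
    have hmu : (P V).map (fun ω : V → ℝ => ω u) = lab := Measure.infinitePi_map_eval _ u
    have hmv : (P V).map (fun ω : V → ℝ => ω v) = lab := Measure.infinitePi_map_eval _ v
    have hpair : (P V).map (fun ω : V → ℝ => (ω u, ω v)) = lab.prod lab := by
      rw [(indepFun_iff_map_prod_eq_prod_map_map (measurable_pi_apply u).aemeasurable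
        (measurable_pi_apply v).aemeasurable).1 hind, hmu, hmv]
    have hdiag : (lab.prod lab) {x : ℝ × ℝ | x.1 = x.2} = 0 := by
      have hm : MeasurableSet {x : ℝ × ℝ | x.1 = x.2} :=
        measurableSet_eq_fun measurable_fst measurable_snd
      rw [Measure.prod_apply hm]
      have : ∀ x : ℝ, lab (Prod.mk x ⁻¹' {x : ℝ × ℝ | x.1 = x.2}) = 0 := by
        intro x
        have e : Prod.mk x ⁻¹' {x : ℝ × ℝ | x.1 = x.2} = {x} := by
          ext y
          simp [eq_comm]
        rw [e]
        unfold lab
        exact measure_singleton x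
      simp only [this, lintegral_const, zero_mul]
    rw [ae_iff]
    have e : {ω : V → ℝ | ¬ ω u ≠ ω v} =
        (fun ω : V → ℝ => (ω u, ω v)) ⁻¹' {x : ℝ × ℝ | x.1 = x.2} := by
      ext ω
      simp
    rw [e, ← Measure.map_apply ((measurable_pi_apply u).prodMk (measurable_pi_apply v))
      (measurableSet_eq_fun measurable_fst measurable_snd), hpair, hdiag]
  filter_upwards [key] with ω hω _
  exact hω

end Pool.Agent.Y694.T6
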