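import Pool.Agent.Y694.T6.Facts

/-!
# Chains of uncoloured vertices
-/

set_option autoImplicit false

open MeasureTheory ProbabilityTheory Filter Topology
open scoped ENNReal

namespace Pool.Agent.Y694.T6

variable {V : Type*}

/-- One step of the chain. -/
theorem chain_step (G : SimpleGraph V) (hdeg : Deg6 G) (k q : ℕ) (ω : V → ℝ) (u : V)
    (hkq : k ≤ q) (hu : st G k true ω u ∨ rt G k ω u ≠ 0) (hf : ¬ fin G (q + 1) ω u) :
    rt G k ω u ≠ 0 ∧ ∃ w, G.Adj u w ∧ ¬ fin G q ω w ∧
      ((st G k true ω w ∨ rt G k ω w ≠ 0) → (rt G k ω u < rt G k ω w ∨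
        (rt G k ω w = rt G k ω u ∧ ω w ≤ ω u))) := by
  have hst : ¬ st G (q + 1) true ω u := fun h => hf (Or.inl h)
  have hcol : col G (q + 1) ω u = 0 := by
    by_contra h
    exact hf (Or.inr h)
  have hrt : rt G k ω u ≠ 0 := by
    rcases hu with h | h
    · exact absurd (f_stMono G k (q + 1) true ω u (by omega) h) hst
    · exact h
  refine ⟨hrt, ?_⟩
  have hrq : rt G q ω u = rt G k ω u := rt_stable G ω hkq u hrt
  have hcq : col G q ω u = 0 := by
    by_contra h
    rw [col_succ_of_ne G ω q u h] at hcol
    exact h hcol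
  have hnr : ¬ Ready G q ω u := by
    intro hR
    rw [col_succ_of_ready G ω q u hcq hR] at hcol
    exact (allow_spec G hdeg ω q u hR.1).1.1 hcol
  have h2 : ¬ ∀ w, G.Adj u w →
        (st G q true ω w ∨ col G q ω w ≠ 0 ∨
          (rt G q ω w ≠ 0 ∧ (rt G q ω w < rt G q ω u ∨
            (rt G q ω w = rt G q ω u ∧ ω u < ω w)))) := by
    intro h
    exact hnr ⟨by rw [hrq]; exact hrt, h⟩
  push Not at h2
  obtain ⟨w, hw, hs, hc, hr⟩ := h2
  refine ⟨w, hw, ?_, ?_⟩
  · rintro (h | h)
    · exact hs h
    · exact h hc
  · intro hk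
    have hrw : rt G k ω w ≠ 0 := by
      rcases hk with h | h
      · exact absurd (f_stMono G k q true ω w hkq h) hs
      · exact h
    have hrqw : rt G q ω w = rt G k ω w := rt_stable G ω hkq w hrw
    rw [hrq, hrqw] at hr
    obtain ⟨ha, hb⟩ := hr hrw
    rcases ha.lt_or_eq with h | h
    · exact Or.inl h
    · exact Or.inr ⟨h.symm, hb h.symm⟩

/-- The relation between consecutive members of the chain. -/
def Rel (G : SimpleGraph V) (k : ℕ) (ω : V → ℝ) (u w : V) : Prop :=
  rt G k ω u < rt G k ω w ∨ (rt G k ω w = rt G k ω u ∧ ω w < ω u)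

theorem rel_trans (G : SimpleGraph V) (k : ℕ) (ω : V → ℝ) (a b c : V)
    (h1 : Rel G k ω a b) (h2 : Rel G k ω b c) : Rel G k ω a c := by
  unfold Rel at *
  rcases h1 with h1 | h1 <;> rcases h2 with h2 | h2
  · left; omega
  · left; omega
  · left; omega
  · right; exact ⟨by omega, lt_trans h2.2 h1.2⟩

theorem rel_irrefl (G : SimpleGraph V) (k : ℕ) (ω : V → ℝ) (a : V) : ¬ Rel G k ω a a := by
  unfold Rel
  rintro (h | h)
  · omega
  · exact lt_irrefl _ h.2

theorem t_chain (G : SimpleGraph V) (hc : G.Connected) (hdeg : Deg6 G) : Chain G := by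
  intro k m ω v hE hN
  -- existence of the chain
  have key : ∀ n, ∀ u, n ≤ m → G.dist v u ≤ m - n → ¬ fin G (k + n + 1) ω u →
      ∃ p : ℕ → V, p 0 = u ∧ (∀ i < n, G.Adj (p i) (p (i + 1))) ∧
        (∀ i < n, Rel G k ω (p i) (p (i + 1))) ∧ ∀ i ≤ n, G.dist v (p i) ≤ m := by
    intro n
    induction n with
    | zero =>
      intro u _ hu _
      exact ⟨fun _ => u, rfl, fun i hi => absurd hi (by omega), fun i hi => absurd hi (by omega),
        fun i hi => by simpa using hu⟩
    | succ n ih =>
      intro u hn hu hf
      have hu' : G.dist v u ≤ m := by omega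
      obtain ⟨hr, w, hw, hfw, hrel⟩ := chain_step G hdeg k (k + n + 1) ω u (by omega)
        (hE u hu') hf
      have h1 : G.dist v w ≤ G.dist v u + G.dist u w := hc.dist_triangle
      have h2 : G.dist u w = 1 := SimpleGraph.dist_eq_one_iff_adj.2 hw
      have hw' : G.dist v w ≤ m - n := by omega
      obtain ⟨p, hp0, hpa, hpr, hpd⟩ := ih w (by omega) hw' hfw
      have hR : Rel G k ω u w := by
        rcases hrel (hE w (by omega)) with h | h
        · exact Or.inl h
        · exact Or.inr ⟨h.1, lt_of_le_of_ne h.2 (hN u w hw).symm⟩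
      refine ⟨fun i => if i = 0 then u else p (i - 1), by simp, ?_, ?_, ?_⟩
      · intro i hi
        rcases Nat.eq_zero_or_pos i with rfl | hi0
        · simp [hp0, hw]
        · have e1 : i ≠ 0 := by omega
          have e2 : i + 1 - 1 = (i - 1) + 1 := by omega
          have := hpa (i - 1) (by omega)
          simp only [e1, if_false, Nat.add_eq_zero_iff, one_ne_zero, and_false]
          rw [e2]
          exact this
      · intro i hi
        rcases Nat.eq_zero_or_pos i with rfl | hi0
        · simp [hp0, hR]
        · have e1 : i ≠ 0 := by omega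
          have e2 : i + 1 - 1 = (i - 1) + 1 := by omega
          have := hpr (i - 1) (by omega)
          simp only [e1, if_false, Nat.add_eq_zero_iff, one_ne_zero, and_false]
          rw [e2]
          exact this
      · intro i hi
        rcases Nat.eq_zero_or_pos i with rfl | hi0
        · simpa using hu'
        · have e1 : i ≠ 0 := by omega
          simp only [e1, if_false]
          exact hpd (i - 1) (by omega)
  intro hf
  obtain ⟨p, hp0, hpa, hpr, hpd⟩ := key m v le_rfl (by rw [SimpleGraph.dist_self]; omega) hf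
  have hlt : ∀ i j, i < j → j ≤ m → Rel G k ω (p i) (p j) := by
    intro i j hij
    induction hij with
    | refl => intro hj; exact hpr i (by omega)
    | step _ ih => intro hj; exact rel_trans G k ω _ _ _ (ih (by omega)) (hpr _ (by omega))
  have hinj : Set.InjOn p (Set.Iic m) := by
    intro i hi j hj hij
    rcases lt_trichotomy i j with h1 | h1 | h1
    · have := hlt i j h1 hj
      rw [hij] at this
      exact absurd this (rel_irrefl _ _ _ _)
    · exact h1
    · have := hlt j i h1 hi
      rw [hij] at this
      exact absurd this (rel_irrefl _ _ _ _)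
  refine ⟨p, hp0, hpa, hinj, ?_⟩
  -- counting
  have hmono : ∀ i < m, rt G k ω (p i) ≤ rt G k ω (p (i + 1)) := by
    intro i hi
    rcases hpr i hi with h | h <;> omega
  have hcount : ∀ n ≤ m, ((Finset.range n).filter fun i => ω (p i) ≤ ω (p (i + 1))).card ≤
      rt G k ω (p n) := by
    intro n
    induction n with
    | zero => intro _; simp
    | succ n ih =>
      intro hn
      rw [Finset.range_add_one, Finset.filter_insert]
      have h1 := ih (by omega)
      have h2 := hmono n (by omega)
      split_ifs with h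
      · have h3 : rt G k ω (p n) < rt G k ω (p (n + 1)) := by
          rcases hpr n (by omega) with h4 | h4
          · exact h4
          · exact absurd h (not_le.2 h4.2)
        have h5 := Finset.card_insert_le n
          ((Finset.range n).filter fun i => ω (p i) ≤ ω (p (i + 1)))
        omega
      · omega
  exact le_trans (hcount m le_rfl) (rt_le G ω k _)

end Pool.Agent.Y694.T6
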