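import Pool.Agent.Y694.T6.Facts

/-!
# Locality of the algorithm
-/

set_option autoImplicit false

open MeasureTheory ProbabilityTheory Filter Topology
open scoped ENNReal

namespace Pool.Agent.Y694.T6

variable {V : Type*}

theorem dist_adj_le (G : SimpleGraph V) (hc : G.Connected) {a u w : V} (h : G.Adj u w) :
    G.dist a w ≤ G.dist a u + 1 := by
  have h1 : G.dist a w ≤ G.dist a u + G.dist u w := hc.dist_triangle
  have h2 : G.dist u w = 1 := SimpleGraph.dist_eq_one_iff_adj.2 h
  omega

/-- Transport of short walks through a map preserving adjacency on a ball. -/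
theorem map_walk (G : SimpleGraph V) (hc : G.Connected) (R : ℕ) (v : V) (φ : V → V)
    (hadj : ∀ a b, G.dist v a ≤ R → G.dist v b ≤ R → G.Adj a b → G.Adj (φ a) (φ b)) :
    ∀ (n : ℕ) (a b : V), G.dist v a + n ≤ R → G.dist a b ≤ n → G.dist (φ a) (φ b) ≤ n := by
  intro n
  induction n with
  | zero =>
    intro a b _ hab
    have h00 : G.dist a b = 0 := by omega
    have h0 : a = b := hc.dist_eq_zero_iff.1 h00
    rw [h0, SimpleGraph.dist_self]
  | succ n ih =>
    intro a b ha hab
    by_cases h0 : G.dist a b ≤ n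
    · exact le_trans (ih a b (by omega) h0) (by omega)
    · have h1 : G.dist a b = n + 1 := by omega
      obtain ⟨p, hp⟩ := hc.exists_walk_length_eq_dist a b
      cases p with
      | nil =>
        rw [SimpleGraph.Walk.length_nil] at hp
        rw [SimpleGraph.dist_self]
        omega
      | cons hadj' q =>
        rename_i c
        have hq : q.length = n := by
          simp only [SimpleGraph.Walk.length_cons] at hp
          omega
        have hcb : G.dist c b ≤ n := by
          rw [← hq]
          exact SimpleGraph.dist_le q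
        have hvc : G.dist v c ≤ G.dist v a + 1 := dist_adj_le G hc hadj'
        have h2 := ih c b (by omega) hcb
        have h3 : G.Adj (φ a) (φ c) := hadj a c (by omega) (by omega) hadj'
        have h4 : G.dist (φ a) (φ b) ≤ G.dist (φ a) (φ c) + G.dist (φ c) (φ b) := hc.dist_triangle
        have h5 : G.dist (φ a) (φ c) = 1 := SimpleGraph.dist_eq_one_iff_adj.2 h3
        omega

/-- Restriction of a ball isomorphism to a smaller ball around another centre. -/
theorem ballIso_restrict (G : SimpleGraph V) (hc : G.Connected) {r s : ℕ} {ω ω' : V → ℝ}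
    {v v' w : V} {φ : V → V} (h : BallIso G r ω ω' v v' φ) (hw : G.dist v w + s ≤ r) :
    BallIso G s ω ω' w (φ w) φ := by
  classical
  obtain ⟨h1, h2, h3, h4⟩ := h
  have hsub : ∀ u, G.dist w u ≤ s → G.dist v u ≤ r := by
    intro u hu
    have : G.dist v u ≤ G.dist v w + G.dist w u := hc.dist_triangle
    omega
  have : Nonempty V := ⟨v⟩
  have hinv := h2.invOn_invFunOn
  have hmaps := h2.surjOn.mapsTo_invFunOn
  set ψ := Function.invFunOn φ {u | G.dist v u ≤ r} with hψ
  have hadj : ∀ a b, G.dist v a ≤ r → G.dist v b ≤ r → G.Adj a b → G.Adj (φ a) (φ b) :=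
    fun a b ha hb hab => (h3 a b ha hb).1 hab
  have hadj' : ∀ a b, G.dist v' a ≤ r → G.dist v' b ≤ r → G.Adj a b → G.Adj (ψ a) (ψ b) := by
    intro a b ha hb hab
    have e1 : φ (ψ a) = a := hinv.2 ha
    have e2 : φ (ψ b) = b := hinv.2 hb
    rw [h3 (ψ a) (ψ b) (hmaps ha) (hmaps hb), e1, e2]
    exact hab
  have hdw : G.dist v' (φ w) ≤ G.dist v w := by
    rw [← h1]
    exact map_walk G hc r v φ hadj (G.dist v w) v w
      (by rw [SimpleGraph.dist_self]; omega) le_rfl
  refine ⟨rfl, ⟨?_, ?_, ?_⟩, ?_, ?_⟩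
  · intro u hu
    exact map_walk G hc r v φ hadj s w u hw hu
  · exact h2.injOn.mono fun u hu => hsub u hu
  · intro u' hu'
    have hu1 : G.dist (φ w) u' ≤ s := hu'
    have hu2 : G.dist v' u' ≤ r := by
      have : G.dist v' u' ≤ G.dist v' (φ w) + G.dist (φ w) u' := hc.dist_triangle
      omega
    refine ⟨ψ u', ?_, hinv.2 hu2⟩
    have e : ψ (φ w) = w := hinv.1 (show G.dist v w ≤ r by omega)
    have := map_walk G hc r v' ψ hadj' s (φ w) u' (by omega) hu1
    rw [e] at this
    exact this
  · intro a b ha hb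
    exact h3 a b (hsub a ha) (hsub b hb)
  · intro a ha
    exact h4 a (hsub a ha)

theorem t_ballMono (G : SimpleGraph V) (hc : G.Connected) : BallMono G := by
  intro r r' ω ω' v v' φ hr h
  have := ballIso_restrict G hc h (w := v) (s := r) (by rw [SimpleGraph.dist_self]; omega)
  rw [h.1] at this
  exact this

/-- The neighbours correspond. -/
theorem ballIso_nbr (G : SimpleGraph V) (hc : G.Connected) {r : ℕ} {ω ω' : V → ℝ}
    {v v' : V} {φ : V → V} (h : BallIso G (r + 1) ω ω' v v' φ) :
    Set.BijOn φ {w | G.Adj v w} {w | G.Adj v' w} := by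
  have hv : G.dist v v ≤ r + 1 := by rw [SimpleGraph.dist_self]; omega
  have hd : ∀ {a b : V}, G.Adj a b → G.dist a b ≤ r + 1 := by
    intro a b hab
    rw [SimpleGraph.dist_eq_one_iff_adj.2 hab]
    omega
  obtain ⟨h1, h2, h3, h4⟩ := h
  refine ⟨?_, ?_, ?_⟩
  · intro w hw
    have := (h3 v w hv (hd hw)).1 hw
    rw [h1] at this
    exact this
  · exact h2.injOn.mono fun w hw => hd hw
  · intro w' hw'
    obtain ⟨w, hw, rfl⟩ := h2.surjOn (show w' ∈ {u | G.dist v' u ≤ r + 1} from hd hw')
    refine ⟨w, ?_, rfl⟩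
    have hw'' : G.Adj v' (φ w) := hw'
    rw [← h1] at hw''
    exact (h3 v w hv hw).2 hw''

theorem t_loc (G : SimpleGraph V) (hc : G.Connected) : Loc G := by
  classical
  intro r
  induction r with
  | zero =>
    intro ω ω' v v' φ _
    refine ⟨?_, rfl, rfl⟩
    intro b
    cases b <;> exact Iff.rfl
  | succ r ih =>
    intro ω ω' v v' φ h
    have hb := ballIso_nbr G hc h
    have h0 : BallIso G r ω ω' v v' φ := by
      have := ballIso_restrict G hc h (w := v) (s := r) (by rw [SimpleGraph.dist_self]; omega)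
      rw [h.1] at this
      exact this
    obtain ⟨v1, v2, v3⟩ := ih ω ω' v v' φ h0
    have hlab : ω' v' = ω v := by
      have := h.2.2.2 v (by rw [SimpleGraph.dist_self]; omega)
      rw [h.1] at this
      exact this
    have hw : ∀ w, G.Adj v w → G.Adj v' (φ w) ∧ ω' (φ w) = ω w ∧
        (∀ b, st G r b ω w ↔ st G r b ω' (φ w)) ∧ rt G r ω w = rt G r ω' (φ w) ∧
          col G r ω w = col G r ω' (φ w) := by
      intro w hw
      have hd : G.dist v w = 1 := SimpleGraph.dist_eq_one_iff_adj.2 hw
      refine ⟨hb.mapsTo hw, h.2.2.2 w (by omega), ?_⟩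
      exact ih ω ω' w (φ w) φ (ballIso_restrict G hc h (w := w) (s := r) (by omega))
    have hw' : ∀ w', G.Adj v' w' → ∃ w, G.Adj v w ∧ φ w = w' := by
      intro w' hw'
      obtain ⟨w, h1, h2⟩ := hb.surjOn hw'
      exact ⟨w, h1, h2⟩
    refine ⟨?_, ?_, ?_⟩
    · intro b
      cases b with
      | true =>
        show (∀ w, G.Adj v w → ω w < ω v → st G r false ω w) ↔
          (∀ w, G.Adj v' w → ω' w < ω' v' → st G r false ω' w)
        constructor
        · intro hs w' h1 h2
          obtain ⟨w, h3, rfl⟩ := hw' w' h1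
          obtain ⟨_, h5, h6, _, _⟩ := hw w h3
          rw [h5, hlab] at h2
          exact (h6 false).1 (hs w h3 h2)
        · intro hs w h1 h2
          obtain ⟨h4, h5, h6, _, _⟩ := hw w h1
          rw [← h5, ← hlab] at h2
          exact (h6 false).2 (hs (φ w) h4 h2)
      | false =>
        show (∃ w, G.Adj v w ∧ ω w < ω v ∧ st G r true ω w) ↔
          (∃ w, G.Adj v' w ∧ ω' w < ω' v' ∧ st G r true ω' w)
        constructor
        · rintro ⟨w, h1, h2, h3⟩
          obtain ⟨h4, h5, h6, _, _⟩ := hw w h1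
          refine ⟨φ w, h4, ?_, (h6 true).1 h3⟩
          rw [h5, hlab]
          exact h2
        · rintro ⟨w', h1, h2, h3⟩
          obtain ⟨w, h7, rfl⟩ := hw' w' h1
          obtain ⟨_, h5, h6, _, _⟩ := hw w h7
          rw [h5, hlab] at h2
          exact ⟨w, h7, h2, (h6 true).2 h3⟩
    · have hcard : {w | G.Adj v w ∧ (st G r true ω w ∨ rt G r ω w ≠ 0)}.ncard =
          {w | G.Adj v' w ∧ (st G r true ω' w ∨ rt G r ω' w ≠ 0)}.ncard := by
        have himg : {w | G.Adj v' w ∧ (st G r true ω' w ∨ rt G r ω' w ≠ 0)} =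
            φ '' {w | G.Adj v w ∧ (st G r true ω w ∨ rt G r ω w ≠ 0)} := by
          ext w'
          constructor
          · rintro ⟨h1, h2⟩
            obtain ⟨w, h7, rfl⟩ := hw' w' h1
            obtain ⟨_, _, h6, h8, _⟩ := hw w h7
            refine ⟨w, ⟨h7, ?_⟩, rfl⟩
            rw [h6 true, h8]
            exact h2
          · rintro ⟨w, ⟨h1, h2⟩, rfl⟩
            obtain ⟨h4, _, h6, h8, _⟩ := hw w h1
            refine ⟨h4, ?_⟩
            rw [h6 true, h8] at h2
            exact h2
        rw [himg]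
        exact (Set.InjOn.ncard_image (hb.injOn.mono fun w hw => hw.1)).symm
      simp only [rt]
      rw [v2, v1 false, hcard]
    · have hall : Allow G r ω v = Allow G r ω' v' := by
        ext c
        constructor
        · rintro ⟨hc0, hc1⟩
          refine ⟨hc0, fun w' h1 => ?_⟩
          obtain ⟨w, h7, rfl⟩ := hw' w' h1
          obtain ⟨_, _, _, h8, h9⟩ := hw w h7
          rw [← h8, ← h9, ← v2]
          exact hc1 w h7
        · rintro ⟨hc0, hc1⟩
          refine ⟨hc0, fun w h1 => ?_⟩
          obtain ⟨h4, _, _, h8, h9⟩ := hw w h1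
          rw [h8, h9, v2]
          exact hc1 (φ w) h4
      have hrd : Ready G r ω v ↔ Ready G r ω' v' := by
        constructor
        · rintro ⟨hc0, hc1⟩
          refine ⟨by rw [← v2]; exact hc0, fun w' h1 => ?_⟩
          obtain ⟨w, h7, rfl⟩ := hw' w' h1
          obtain ⟨_, h5, h6, h8, h9⟩ := hw w h7
          rw [← h8, ← h9, ← v2, ← h6 true, h5, hlab]
          exact hc1 w h7
        · rintro ⟨hc0, hc1⟩
          refine ⟨by rw [v2]; exact hc0, fun w h1 => ?_⟩
          obtain ⟨h4, h5, h6, h8, h9⟩ := hw w h1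
          rw [h8, h9, v2, h6 true, ← h5, ← hlab]
          exact hc1 (φ w) h4
      by_cases hc0 : col G r ω v ≠ 0
      · rw [col_succ_of_ne G ω r v hc0, col_succ_of_ne G ω' r v' (by rw [← v3]; exact hc0), v3]
      · have hc1 : col G r ω v = 0 := by simpa using hc0
        have hc2 : col G r ω' v' = 0 := by rw [← v3]; exact hc1
        by_cases hR : Ready G r ω v
        · rw [col_succ_of_ready G ω r v hc1 hR, col_succ_of_ready G ω' r v' hc2 (hrd.1 hR), hall]
        · rw [col_succ_of_not_ready G ω r v hc1 hR,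
            col_succ_of_not_ready G ω' r v' hc2 fun h => hR (hrd.2 h)]

end Pool.Agent.Y694.T6
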