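import Pool.Agent.Y694.T6.Tail

/-!
# Final assembly
-/

set_option autoImplicit false

open MeasureTheory ProbabilityTheory Filter Topology
open scoped ENNReal

namespace Pool.Agent.Y694.T6

variable {V : Type*}

theorem zz_le_one (k : ℕ) : zz k ≤ 1 := measureReal_le_one

theorem zz_superexp (hF : FfEq) (hO : Ode) (hZ : ZzRec) (hNum : Num) :
    ∀ C : ℝ, ∀ᶠ k : ℕ in atTop, zz k ≤ Real.exp (-C * k) := by
  obtain ⟨hm, h0, h1, he⟩ := hF
  obtain ⟨hf1, hint⟩ := hO ff hm h0 h1 he
  refine hNum zz (∫ y in (0 : ℝ)..1, ff y) ?_ hint (fun k => measureReal_nonneg) zz_le_one ?_ hZ.2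
  · exact intervalIntegral.integral_nonneg zero_le_one (fun y _ => h0 y)
  · rw [hZ.1]
    linarith

/-- Uniform superexponential tail of the stopping time. -/
theorem tail_superexp (G : SimpleGraph V) (hdeg : Deg6 G) [Countable V] [Nonempty V]
    (hS : StBound G)
    (hH : HsBsg G) (hB : BsgLe G) (hR : Resolved G) (hU : BallUnion G) (hC : Chain G)
    (hN : NoTies V) (hW : WalkBound G)
    (hF : FfEq) (hO : Ode) (hZ : ZzRec) (hNum : Num) (hA : Asy) :
    ∀ C : ℝ, ∀ᶠ r : ℕ in atTop,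
      (⨆ v, (P V).real {ω | ¬ fin G r ω v}) ≤ Real.exp (-C * r) := by
  intro C
  filter_upwards [hA zz (fun k => measureReal_nonneg) (zz_superexp hF hO hZ hNum) C] with r hr
  obtain ⟨m, k, j, rfl, hb⟩ := hr
  apply ciSup_le
  intro v
  refine le_trans ?_ hb
  rw [measureReal_def]
  apply ENNReal.toReal_le_of_le_ofReal
  · have hz : 0 ≤ zz j := measureReal_nonneg
    positivity
  · exact tail_bound G hdeg hS hH hB hR hU hC hN hW v m k j

open Classical in
/-- The stopping radius. -/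
noncomputable def Rad (G : SimpleGraph V) (ω : V → ℝ) (v : V) : ℕ∞ :=
  if h : ∃ r, fin G r ω v then ((Nat.find h : ℕ) : ℕ∞) else ⊤

open Classical in
/-- The output colour. -/
noncomputable def outc (G : SimpleGraph V) (ω : V → ℝ) (v : V) : Fin 5 :=
  if h : ∃ r, fin G r ω v then Fin.ofNat 5 (col G (Nat.find h) ω v) else 0

theorem rad_eq_iff (G : SimpleGraph V) (ω : V → ℝ) (v : V) (r : ℕ) :
    Rad G ω v = r ↔ fin G r ω v ∧ ∀ s < r, ¬ fin G s ω v := by
  classical
  unfold Rad
  split_ifs with h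
  · rw [Nat.cast_inj, Nat.find_eq_iff]
  · constructor
    · intro h2
      exact absurd h2 (by simp)
    · intro h2
      exact absurd ⟨r, h2.1⟩ h

theorem outc_of_rad (G : SimpleGraph V) (ω : V → ℝ) (v : V) (r : ℕ) (h : Rad G ω v = r) :
    outc G ω v = Fin.ofNat 5 (col G r ω v) := by
  classical
  have h1 : ∃ r, fin G r ω v := ⟨r, ((rad_eq_iff G ω v r).1 h).1⟩
  unfold outc
  rw [dif_pos h1]
  have h2 : Rad G ω v = ((Nat.find h1 : ℕ) : ℕ∞) := by
    unfold Rad
    rw [dif_pos h1]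
  rw [h] at h2
  rw [Nat.cast_inj] at h2
  rw [← h2]

theorem lt_rad (G : SimpleGraph V) (ω : V → ℝ) (v : V) (r : ℕ)
    (h : (r : ℕ∞) < Rad G ω v) : ¬ fin G r ω v := by
  classical
  intro hf
  have h1 : ∃ r, fin G r ω v := ⟨r, hf⟩
  unfold Rad at h
  rw [dif_pos h1, Nat.cast_lt] at h
  exact absurd (Nat.find_min' h1 hf) (by omega)

theorem rad_ne_top_of_fin (G : SimpleGraph V) (ω : V → ℝ) (v : V) (r : ℕ)
    (h : fin G r ω v) : Rad G ω v ≠ ⊤ := by
  classical
  have h1 : ∃ r, fin G r ω v := ⟨r, h⟩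
  unfold Rad
  rw [dif_pos h1]
  exact ENat.natCast_ne_top _

theorem meas_rad (G : SimpleGraph V) (hM : Meas G) (v : V) (r : ℕ) (i : Fin 5) :
    MeasurableSet {ω : V → ℝ | Rad G ω v = r ∧ outc G ω v = i} := by
  have hfin : ∀ s : ℕ, MeasurableSet {ω : V → ℝ | fin G s ω v} := by
    intro s
    have h1 := (hM s v).1 true
    have h2 : MeasurableSet {ω : V → ℝ | col G s ω v ≠ 0} :=
      (hM s v).2.2 (MeasurableSet.of_discrete (s := {n : ℕ | n ≠ 0}))
    exact h1.union h2
  have e : {ω : V → ℝ | Rad G ω v = r ∧ outc G ω v = i} =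
      ({ω | fin G r ω v} ∩ ⋂ s ∈ Finset.range r, {ω | fin G s ω v}ᶜ) ∩
        {ω | Fin.ofNat 5 (col G r ω v) = i} := by
    ext ω
    simp only [Set.mem_ofPred_eq, Set.mem_inter_iff, Set.mem_iInter, Finset.mem_range,
      Set.mem_compl_iff]
    constructor
    · rintro ⟨h1, h2⟩
      rw [outc_of_rad G ω v r h1] at h2
      exact ⟨(rad_eq_iff G ω v r).1 h1, h2⟩
    · rintro ⟨h1, h2⟩
      have h3 := (rad_eq_iff G ω v r).2 h1
      exact ⟨h3, by rw [outc_of_rad G ω v r h3]; exact h2⟩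
  rw [e]
  refine ((hfin r).inter (Finset.measurableSet_biInter _ fun s _ => (hfin s).compl)).inter ?_
  exact (hM r v).2.2 (MeasurableSet.of_discrete (s := {n : ℕ | Fin.ofNat 5 n = i}))

theorem loc_rad (G : SimpleGraph V) (hL : Loc G) (hB : BallMono G) (r : ℕ) (ω ω' : V → ℝ)
    (v v' : V) (φ : V → V) (h : BallIso G r ω ω' v v' φ) (hr : Rad G ω v = r) :
    Rad G ω' v' = r ∧ outc G ω' v' = outc G ω v := by
  have key : ∀ s ≤ r, (fin G s ω v ↔ fin G s ω' v') ∧ col G s ω v = col G s ω' v' := by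
    intro s hs
    obtain ⟨h1, _, h3⟩ := hL s ω ω' v v' φ (hB s r ω ω' v v' φ hs h)
    refine ⟨?_, h3⟩
    unfold fin
    rw [h1 true, h3]
  have h1 : Rad G ω' v' = r := by
    rw [rad_eq_iff] at hr ⊢
    refine ⟨(key r le_rfl).1.1 hr.1, fun s hs hf => hr.2 s hs ((key s hs.le).1.2 hf)⟩
  refine ⟨h1, ?_⟩
  rw [outc_of_rad G ω v r hr, outc_of_rad G ω' v' r h1, (key r le_rfl).2]

/-- Labels in the unit interval. -/
noncomputable def PU (V : Type*) : Measure (V → unitInterval) :=
  Measure.infinitePi fun _ : V => (volume : Measure unitInterval)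

/-- Forget that the labels are in the unit interval. -/
def cv (ω : V → unitInterval) : V → ℝ := fun v => (ω v : ℝ)

theorem measurable_cv : Measurable (cv : (V → unitInterval) → V → ℝ) :=
  measurable_pi_lambda _ fun v => measurable_subtype_coe.comp (measurable_pi_apply v)

theorem map_cv : (PU V).map cv = P V := by
  have h := Measure.infinitePi_map_pi (μ := fun _ : V => (volume : Measure unitInterval))
    (f := fun (_ : V) (x : unitInterval) => (x : ℝ)) (fun _ => measurable_subtype_coe)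
  have e : (volume : Measure unitInterval).map (fun x : unitInterval => (x : ℝ)) = lab :=
    unitInterval.measurePreserving_coe.map_eq
  have e2 : (fun _ : V => (volume : Measure unitInterval).map
      (fun x : unitInterval => (x : ℝ))) = fun _ : V => lab := funext fun _ => e
  unfold PU P cv
  rw [h]
  simp only [e]

end Pool.Agent.Y694.T6
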