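import Pool.Agent.Y694.T6.StB

/-!
# Surviving vertices survive in a branch
-/

set_option autoImplicit false

open MeasureTheory ProbabilityTheory Filter Topology
open scoped ENNReal

namespace Pool.Agent.Y694.T6

variable {V : Type*}

theorem nbr_finite (G : SimpleGraph V) (hdeg : Deg6 G) (v : V) : (G.neighborSet v).Finite := by
  apply Set.finite_of_ncard_ne_zero
  rw [hdeg v]
  norm_num

theorem in_of_out (G : SimpleGraph V) (hdeg : Deg6 G) (ω : V → ℝ) (c : V)
    (h : ∀ w, G.Adj c w → ω w < ω c → ∃ r, st G r false ω w) : ∃ r, st G r true ω c := by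
  classical
  have h1 : ∀ w : V, ∃ r, G.Adj c w → ω w < ω c → st G r false ω w := by
    intro w
    by_cases hw : G.Adj c w
    · by_cases hl : ω w < ω c
      · obtain ⟨r, hr⟩ := h w hw hl
        exact ⟨r, fun _ _ => hr⟩
      · exact ⟨0, fun _ h => absurd h hl⟩
    · exact ⟨0, fun h => absurd h hw⟩
  choose r hr using h1
  have hfin := nbr_finite G hdeg c
  refine ⟨hfin.toFinset.sup r + 1, ?_⟩
  intro w hw hl
  exact f_stMono G (r w) _ false ω w (Finset.le_sup (by simpa using hw)) (hr w hw hl)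

/-- Lemma A. -/
theorem bst_imp (G : SimpleGraph V) (hdeg : Deg6 G) (ω : V → ℝ) :
    ∀ (r : ℕ) (p c : V), G.Adj p c → ((∃ r, st G r false ω p) ∨ ω c < ω p) →
      (bst G r true ω p c → ∃ r, st G r true ω c) ∧
        (bst G r false ω p c → ∃ r, st G r false ω c) := by
  intro r
  induction r with
  | zero => intro p c _ _; exact ⟨fun h => absurd h (by simp [bst]),
      fun h => absurd h (by simp [bst])⟩
  | succ r ih =>
    intro p c hpc hcond
    constructor
    · intro h
      have h' : ∀ d, G.Adj c d → d ≠ p → ω d < ω c → bst G r false ω c d := h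
      apply in_of_out G hdeg ω c
      intro w hw hl
      by_cases hwp : w = p
      · subst hwp
        rcases hcond with h1 | h1
        · exact h1
        · exact absurd h1 (not_lt.2 hl.le)
      · exact (ih c w hw (Or.inr hl)).2 (h' w hw hwp hl)
    · rintro ⟨d, hd, _, hl, hs⟩
      obtain ⟨s, hs'⟩ := (ih c d hd (Or.inr hl)).1 hs
      exact ⟨s + 1, d, hd, hl, hs'⟩

/-- Lemma B. -/
theorem bsg_of_hs (G : SimpleGraph V) (hdeg : Deg6 G) (ω : V → ℝ)
    (hD : ∀ v, (∃ r, st G r true ω v) ∨ ∃ r, st G r false ω v) :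
    ∀ (k : ℕ) (p c : V), G.Adj p c → (∃ r, st G r false ω p) → Hs G k ω c → BSG G k ω p c := by
  intro k
  have base : ∀ (k : ℕ) (p c : V), G.Adj p c → (∃ r, st G r false ω p) → Hs G k ω c →
      ∀ r, ¬ bst G r true ω p c := by
    intro k p c hpc ho hH r hb
    obtain ⟨s, hs⟩ := (bst_imp G hdeg ω r p c hpc (Or.inl ho)).1 hb
    exact hs_zero G ω k c hH s hs
  induction k with
  | zero => intro p c hpc ho hH; exact base 0 p c hpc ho hH
  | succ k ih =>
    intro p c hpc ho hH
    refine ⟨base (k + 1) p c hpc ho hH, ?_⟩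
    have hc : ∃ r, st G r false ω c := by
      rcases hD c with h | h
      · obtain ⟨r, hr⟩ := h
        exact absurd hr (hs_zero G ω (k + 1) c hH r)
      · exact h
    have h4 : 4 ≤ {w | G.Adj c w ∧ Hs G k ω w}.ncard := hH.2
    have hfin := nbr_finite G hdeg c

    have hf2 : ({d | G.Adj c d ∧ d ≠ p ∧ BSG G k ω c d} : Set V).Finite :=
      hfin.subset fun w hw => hw.1
    have h5 : ({w | G.Adj c w ∧ Hs G k ω w} \ {p} : Set V) ⊆
        {d | G.Adj c d ∧ d ≠ p ∧ BSG G k ω c d} := by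
      rintro w ⟨⟨hw, hHw⟩, hwp⟩
      exact ⟨hw, hwp, ih c w hw hc hHw⟩
    have h6 := Set.ncard_le_ncard h5 hf2
    have h7 := Set.pred_ncard_le_ncard_sdiff_singleton {w | G.Adj c w ∧ Hs G k ω w} p
    omega

theorem t_hsBsg (G : SimpleGraph V) (hdeg : Deg6 G) : HsBsg G := by
  intro ω hD k v hH
  have h4 : 4 ≤ {w | G.Adj v w ∧ Hs G k ω w}.ncard := hH.2
  have hne : ({w | G.Adj v w ∧ Hs G k ω w} : Set V).Nonempty := by
    apply Set.nonempty_of_ncard_ne_zero
    omega
  obtain ⟨c, hc, hHc⟩ := hne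
  have hv : ∃ r, st G r false ω v := by
    rcases hD v with h | h
    · obtain ⟨r, hr⟩ := h
      exact absurd hr (hs_zero G ω (k + 1) v hH r)
    · exact h
  exact ⟨c, hc, bsg_of_hs G hdeg ω hD k v c hc hv hHc⟩

end Pool.Agent.Y694.T6
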