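import Pool.Agent.Y694.T6.Stm

/-!
# Statuses on the 5-ary tree; transfer from the branches
-/

set_option autoImplicit false

open MeasureTheory ProbabilityTheory Filter Topology
open scoped ENNReal

namespace Pool.Agent.Y694.T6

theorem tst_succ :
    ∀ (r : ℕ) (b : Bool) (ω : List (Fin 5) → ℝ), tst r b ω → tst (r + 1) b ω := by
  intro r
  induction r with
  | zero => intro b ω h; exact absurd h (by cases b <;> simp [tst])
  | succ r ih =>
    intro b ω h
    cases b with
    | true =>
      have h' : ∀ i, ω [i] < ω [] → tst r false (sh i ω) := h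
      intro i hi
      exact ih false _ (h' i hi)
    | false =>
      obtain ⟨i, hi, hs⟩ := h
      exact ⟨i, hi, ih true _ hs⟩

theorem tst_mono {r r' : ℕ} (h : r ≤ r') {b : Bool} {ω : List (Fin 5) → ℝ}
    (hs : tst r b ω) : tst r' b ω := by
  induction h with
  | refl => exact hs
  | step _ ih => exact tst_succ _ b ω ih

theorem tst_excl_same :
    ∀ (r : ℕ) (ω : List (Fin 5) → ℝ), tst r true ω → tst r false ω → False := by
  intro r
  induction r with
  | zero => intro ω h; exact absurd h (by simp [tst])
  | succ r ih =>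
    intro ω h1 h2
    have h1' : ∀ i, ω [i] < ω [] → tst r false (sh i ω) := h1
    obtain ⟨i, hi, hs⟩ := h2
    exact ih _ hs (h1' i hi)

theorem t_tstExcl : TstExcl := by
  intro r r' ω h1 h2
  exact tst_excl_same (max r r') ω (tst_mono (le_max_left _ _) h1)
    (tst_mono (le_max_right _ _) h2)

theorem t_tstIn : TstIn := by
  intro ω
  constructor
  · rintro ⟨r, hr⟩ i hi
    cases r with
    | zero => exact absurd hr (by simp [tst])
    | succ r =>
      have h1' : ∀ i, ω [i] < ω [] → tst r false (sh i ω) := hr
      exact ⟨r, h1' i hi⟩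
  · intro h
    have h1 : ∀ i : Fin 5, ∃ r, ω [i] < ω [] → tst r false (sh i ω) := by
      intro i
      by_cases hl : ω [i] < ω []
      · obtain ⟨r, hr⟩ := h i hl
        exact ⟨r, fun _ => hr⟩
      · exact ⟨0, fun h => absurd h hl⟩
    choose r hr using h1
    refine ⟨Finset.univ.sup r + 1, ?_⟩
    intro i hi
    exact tst_mono (Finset.le_sup (Finset.mem_univ i)) (hr i hi)

theorem t_tstOut : TstOut := by
  intro ω
  constructor
  · rintro ⟨r, hr⟩
    cases r with
    | zero => exact absurd hr (by simp [tst])
    | succ r =>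
      obtain ⟨i, hi, hs⟩ := hr
      exact ⟨i, hi, r, hs⟩
  · rintro ⟨i, hi, r, hs⟩
    exact ⟨r + 1, i, hi, hs⟩

theorem measurable_sh (i : Fin 5) : Measurable (sh i) :=
  measurable_pi_lambda _ fun l => measurable_pi_apply (i :: l)

theorem meas_lt (i : Fin 5) : MeasurableSet {ω : List (Fin 5) → ℝ | ω [i] < ω []} :=
  measurableSet_lt (measurable_pi_apply _) (measurable_pi_apply _)

theorem t_tstMeas : TstMeas := by
  intro r
  induction r with
  | zero =>
    intro b
    have : {ω : List (Fin 5) → ℝ | tst 0 b ω} = ∅ := by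
      ext ω
      cases b <;> simp [tst]
    rw [this]
    exact MeasurableSet.empty
  | succ r ih =>
    intro b
    cases b with
    | true =>
      have : {ω : List (Fin 5) → ℝ | tst (r + 1) true ω} =
          ⋂ i : Fin 5, ({ω | ω [i] < ω []}ᶜ ∪ sh i ⁻¹' {ω | tst r false ω}) := by
        ext ω
        simp only [Set.mem_iInter, Set.mem_union, Set.mem_compl_iff, Set.mem_ofPred_eq,
          Set.mem_preimage]
        constructor
        · intro h i
          by_cases hi : ω [i] < ω []
          · exact Or.inr (h i hi)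
          · exact Or.inl hi
        · intro h i hi
          rcases h i with h1 | h1
          · exact absurd hi h1
          · exact h1
      rw [this]
      exact MeasurableSet.iInter fun i => (meas_lt i).compl.union (measurable_sh i (ih false))
    | false =>
      have : {ω : List (Fin 5) → ℝ | tst (r + 1) false ω} =
          ⋃ i : Fin 5, ({ω | ω [i] < ω []} ∩ sh i ⁻¹' {ω | tst r true ω}) := by
        ext ω
        simp only [Set.mem_iUnion, Set.mem_inter_iff, Set.mem_ofPred_eq,
          Set.mem_preimage]
        rfl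
      rw [this]
      exact MeasurableSet.iUnion fun i => (meas_lt i).inter (measurable_sh i (ih true))

theorem meas_not_in : MeasurableSet {ω : List (Fin 5) → ℝ | ∀ r, ¬ tst r true ω} := by
  have : {ω : List (Fin 5) → ℝ | ∀ r, ¬ tst r true ω} = ⋂ r : ℕ, {ω | tst r true ω}ᶜ := by
    ext ω
    simp
  rw [this]
  exact MeasurableSet.iInter fun r => (t_tstMeas r true).compl

theorem t_tsMeas : TSMeas := by
  classical
  intro k
  induction k with
  | zero => exact meas_not_in
  | succ k ih =>
    have h1 : {ω : List (Fin 5) → ℝ | TS (k + 1) ω} =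
        {ω | ∀ r, ¬ tst r true ω} ∩
          ⋃ s ∈ (Finset.univ : Finset (Finset (Fin 5))).filter (fun s => 3 ≤ s.card),
            ⋂ i ∈ s, sh i ⁻¹' {ω | TS k ω} := by
      ext ω
      simp only [Set.mem_inter_iff, Set.mem_iUnion, Set.mem_iInter, Set.mem_preimage,
        Set.mem_ofPred_eq, Finset.mem_filter, Finset.mem_univ, true_and]
      constructor
      · rintro ⟨h1, h2⟩
        refine ⟨h1, (Set.toFinite {i | TS k (sh i ω)}).toFinset, ?_, ?_⟩
        · rw [← Set.ncard_eq_toFinset_card _ (Set.toFinite {i | TS k (sh i ω)})]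
          exact h2
        · intro i hi
          simpa using hi
      · rintro ⟨h1, s, hs, hi⟩
        refine ⟨h1, le_trans hs ?_⟩
        rw [← Set.ncard_coe_finset]
        exact Set.ncard_le_ncard (fun i hi' => hi i hi') (Set.toFinite _)
    rw [h1]
    refine meas_not_in.inter (Finset.measurableSet_biUnion _ fun s _ => ?_)
    exact Finset.measurableSet_biInter _ fun i _ => measurable_sh i ih

/-! ### Transfer from the branches -/

variable {V : Type*}

theorem bst_iff (G : SimpleGraph V) (ch : V → V → Fin 5 → V) (φ : V → V → List (Fin 5) → V)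
    (h : Emb G ch φ) (ω : V → ℝ) :
    ∀ (r : ℕ) (b : Bool) (p c : V), G.Adj p c →
      (bst G r b ω p c ↔ tst r b (fun l => ω (φ p c l))) := by
  obtain ⟨h0, h1, h2, h3⟩ := h
  intro r
  induction r with
  | zero => intro b p c _; cases b <;> simp [bst, tst]
  | succ r ih =>
    intro b p c hpc
    have hsh : ∀ i, sh i (fun l => ω (φ p c l)) = fun l => ω (φ c (ch p c i) l) := by
      intro i
      funext l
      show ω (φ p c (i :: l)) = ω (φ c (ch p c i) l)
      rw [h1]
    have hch : ∀ i, G.Adj c (ch p c i) ∧ ch p c i ≠ p := by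
      intro i
      have : ch p c i ∈ Set.range (ch p c) := ⟨i, rfl⟩
      rw [(h2 p c hpc).2] at this
      exact this
    have hroot : ω (φ p c []) = ω c := by rw [h0]
    have hone : ∀ i, ω (φ p c [i]) = ω (ch p c i) := by
      intro i
      rw [h1, h0]
    cases b with
    | true =>
      constructor
      · intro hb i hi
        have hb' : ∀ d, G.Adj c d → d ≠ p → ω d < ω c → bst G r false ω c d := hb
        rw [hsh i]
        have hi' : ω (φ p c [i]) < ω (φ p c []) := hi
        rw [hroot, hone] at hi'
        exact (ih false c _ (hch i).1).1 (hb' _ (hch i).1 (hch i).2 hi')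
      · intro hb d hd hdp hl
        have hb' : ∀ i, ω (φ p c [i]) < ω (φ p c []) →
          tst r false (sh i (fun l => ω (φ p c l))) := hb
        have : d ∈ Set.range (ch p c) := by
          rw [(h2 p c hpc).2]
          exact ⟨hd, hdp⟩
        obtain ⟨i, rfl⟩ := this
        have := hb' i (by rw [hroot, hone]; exact hl)
        rw [hsh i] at this
        exact (ih false c _ hd).2 this
    | false =>
      constructor
      · rintro ⟨d, hd, hdp, hl, hs⟩
        have : d ∈ Set.range (ch p c) := by
          rw [(h2 p c hpc).2]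
          exact ⟨hd, hdp⟩
        obtain ⟨i, rfl⟩ := this
        refine ⟨i, ?_, ?_⟩
        · show ω (φ p c [i]) < ω (φ p c [])
          rw [hroot, hone]
          exact hl
        · rw [hsh i]
          exact (ih true c _ hd).1 hs
      · rintro ⟨i, hi, hs⟩
        refine ⟨ch p c i, (hch i).1, (hch i).2, ?_, ?_⟩
        · have hi' : ω (φ p c [i]) < ω (φ p c []) := hi
          rw [hroot, hone] at hi'
          exact hi'
        · rw [hsh i] at hs
          exact (ih true c _ (hch i).1).2 hs

theorem bsg_iff (G : SimpleGraph V) (ch : V → V → Fin 5 → V) (φ : V → V → List (Fin 5) → V)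
    (h : Emb G ch φ) (ω : V → ℝ) :
    ∀ (k : ℕ) (p c : V), G.Adj p c →
      (BSG G k ω p c ↔ TS k (fun l => ω (φ p c l))) := by
  have hE := h
  obtain ⟨h0, h1, h2, h3⟩ := h
  have base : ∀ (p c : V), G.Adj p c →
      ((∀ r, ¬ bst G r true ω p c) ↔ ∀ r, ¬ tst r true (fun l => ω (φ p c l))) := by
    intro p c hpc
    constructor
    · intro hb r hr
      exact hb r ((bst_iff G ch φ hE ω r true p c hpc).2 hr)
    · intro hb r hr
      exact hb r ((bst_iff G ch φ hE ω r true p c hpc).1 hr)
  intro k
  induction k with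
  | zero => intro p c hpc; exact base p c hpc
  | succ k ih =>
    intro p c hpc
    have hsh : ∀ i, sh i (fun l => ω (φ p c l)) = fun l => ω (φ c (ch p c i) l) := by
      intro i
      funext l
      show ω (φ p c (i :: l)) = ω (φ c (ch p c i) l)
      rw [h1]
    have hch : ∀ i, G.Adj c (ch p c i) ∧ ch p c i ≠ p := by
      intro i
      have : ch p c i ∈ Set.range (ch p c) := ⟨i, rfl⟩
      rw [(h2 p c hpc).2] at this
      exact this
    have himg : {d | G.Adj c d ∧ d ≠ p ∧ BSG G k ω c d} =
        ch p c '' {i | TS k (sh i (fun l => ω (φ p c l)))} := by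
      ext d
      constructor
      · rintro ⟨hd, hdp, hb⟩
        have : d ∈ Set.range (ch p c) := by
          rw [(h2 p c hpc).2]
          exact ⟨hd, hdp⟩
        obtain ⟨i, rfl⟩ := this
        refine ⟨i, ?_, rfl⟩
        show TS k (sh i (fun l => ω (φ p c l)))
        rw [hsh i]
        exact (ih c _ hd).1 hb
      · rintro ⟨i, hi, rfl⟩
        refine ⟨(hch i).1, (hch i).2, ?_⟩
        have hi' : TS k (sh i (fun l => ω (φ p c l))) := hi
        rw [hsh i] at hi'
        exact (ih c _ (hch i).1).2 hi'
    have hcard : {d | G.Adj c d ∧ d ≠ p ∧ BSG G k ω c d}.ncard =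
        {i | TS k (sh i (fun l => ω (φ p c l)))}.ncard := by
      rw [himg]
      exact Set.ncard_image_of_injective _ (h2 p c hpc).1
    show ((∀ r, ¬ bst G r true ω p c) ∧ 3 ≤ {d | G.Adj c d ∧ d ≠ p ∧ BSG G k ω c d}.ncard) ↔
      ((∀ r, ¬ tst r true (fun l => ω (φ p c l))) ∧
        3 ≤ {i | TS k (sh i (fun l => ω (φ p c l)))}.ncard)
    rw [base p c hpc, hcard]

theorem t_bsgLe (G : SimpleGraph V) (hE : EmbEx G) (hL : LawComp V (List (Fin 5))) :
    BsgLe G := by
  obtain ⟨ch, φ, h⟩ := hE
  intro k p c hpc
  have h1 : {ω : V → ℝ | BSG G k ω p c} = (fun ω => ω ∘ φ p c) ⁻¹' {ω | TS k ω} := by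
    ext ω
    exact bsg_iff G ch φ h ω k p c hpc
  have hm : Measurable (fun ω : V → ℝ => ω ∘ φ p c) :=
    measurable_pi_lambda _ fun l => measurable_pi_apply (φ p c l)
  rw [h1, ← hL (φ p c) (h.2.2.2 p c hpc)]
  exact Measure.le_map_apply hm.aemeasurable _

end Pool.Agent.Y694.T6
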