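import Mathlib

/-!
# A fast uniform local algorithm for 5-colouring the 6-regular tree: definitions

Labels are i.i.d. uniform on `[0,1]`.  All statements are about a graph `G` in which every vertex has
exactly six neighbours; the tree hypothesis enters only through the branches (`bst`, `BSG`).
-/

set_option autoImplicit false

open MeasureTheory ProbabilityTheory Filter Topology
open scoped ENNReal

namespace Pool.Agent.Y694.T6

/-- The uniform distribution on `[0,1]`. -/
noncomputable def lab : Measure ℝ := volume.restrict (Set.Icc (0 : ℝ) 1)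

instance instLab : IsProbabilityMeasure lab := by
  constructor
  simp [lab]

/-- The law of i.i.d. labels, uniform on `[0,1]`, indexed by `V`. -/
noncomputable def P (V : Type*) : Measure (V → ℝ) := Measure.infinitePi fun _ : V => lab

instance instP (V : Type*) : IsProbabilityMeasure (P V) := by
  unfold P
  infer_instance

variable {V : Type*}

/-- `φ` is a rooted isomorphism from the labelled ball `(B(v,r), ω)` onto the labelled ball
`(B(v',r), ω')` (balls are induced subgraphs). -/
def BallIso (G : SimpleGraph V) (r : ℕ) (ω ω' : V → ℝ) (v v' : V) (φ : V → V) : Prop :=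
  φ v = v' ∧ Set.BijOn φ {u | G.dist v u ≤ r} {u | G.dist v' u ≤ r} ∧
    (∀ a b, G.dist v a ≤ r → G.dist v b ≤ r → (G.Adj a b ↔ G.Adj (φ a) (φ b))) ∧
    ∀ a, G.dist v a ≤ r → ω' (φ a) = ω a

/-- The status of `v` in the greedy maximal independent set (in order of increasing labels) that is
known after `r` rounds: `st G r true ω v` means `v` is known to be in the set,
`st G r false ω v` means `v` is known not to be in the set. -/
def st (G : SimpleGraph V) : ℕ → Bool → (V → ℝ) → V → Prop
  | 0, _, _, _ => False
  | r + 1, true, ω, v => ∀ w, G.Adj v w → ω w < ω v → st G r false ω w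
  | r + 1, false, ω, v => ∃ w, G.Adj v w ∧ ω w < ω v ∧ st G r true ω w

open Classical in
/-- The release time of `v` known after `r` rounds (`0` if `v` is not released in the first `r`
rounds): `v` is released in round `r + 1` if it is known to be outside the independent set and at
least three of its neighbours are known to be in the set or are already released. -/
noncomputable def rt (G : SimpleGraph V) : ℕ → (V → ℝ) → V → ℕ
  | 0, _, _ => 0
  | r + 1, ω, v =>
    if rt G r ω v ≠ 0 then rt G r ω v
    else if st G r false ω v ∧
        3 ≤ {w | G.Adj v w ∧ (st G r true ω w ∨ rt G r ω w ≠ 0)}.ncard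
      then r + 1 else 0

open Classical in
/-- The colour of `v` after `r` rounds (`0` if `v` has no colour yet; the vertices of the independent
set keep the value `0` for ever).  A released vertex waits until each neighbour is known to be in the
independent set, or is coloured, or has been released earlier, or has been released in the same round
and has a larger label; then it takes the least positive colour not used by the neighbours which were
not released before it. -/
noncomputable def col (G : SimpleGraph V) : ℕ → (V → ℝ) → V → ℕ
  | 0, _, _ => 0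
  | r + 1, ω, v =>
    if col G r ω v ≠ 0 then col G r ω v
    else if rt G r ω v ≠ 0 ∧ ∀ w, G.Adj v w →
        (st G r true ω w ∨ col G r ω w ≠ 0 ∨
          (rt G r ω w ≠ 0 ∧ (rt G r ω w < rt G r ω v ∨
            (rt G r ω w = rt G r ω v ∧ ω v < ω w))))
      then sInf {c | c ≠ 0 ∧ ∀ w, G.Adj v w →
        ((rt G r ω w ≠ 0 ∧ rt G r ω w < rt G r ω v) ∨ col G r ω w ≠ c)}
      else 0

/-- `v` has stopped after `r` rounds. -/
def fin (G : SimpleGraph V) (r : ℕ) (ω : V → ℝ) (v : V) : Prop :=
  st G r true ω v ∨ col G r ω v ≠ 0

/-- Full information peeling: `Hs G 0` is the complement of the greedy independent set, and a vertex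
of `Hs G k` is in `Hs G (k + 1)` if at least four of its neighbours are in `Hs G k`. -/
def Hs (G : SimpleGraph V) : ℕ → (V → ℝ) → V → Prop
  | 0, ω, v => ∀ r, ¬ st G r true ω v
  | k + 1, ω, v => Hs G k ω v ∧ 4 ≤ {w | G.Adj v w ∧ Hs G k ω w}.ncard

/-- The status of `c` in the branch at `c` away from `p` (the vertex `p` is deleted). -/
def bst (G : SimpleGraph V) : ℕ → Bool → (V → ℝ) → V → V → Prop
  | 0, _, _, _, _ => False
  | r + 1, true, ω, p, c => ∀ d, G.Adj c d → d ≠ p → ω d < ω c → bst G r false ω c d
  | r + 1, false, ω, p, c => ∃ d, G.Adj c d ∧ d ≠ p ∧ ω d < ω c ∧ bst G r true ω c d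

/-- Survival of `c` in the branch at `c` away from `p`. -/
def BSG (G : SimpleGraph V) : ℕ → (V → ℝ) → V → V → Prop
  | 0, ω, p, c => ∀ r, ¬ bst G r true ω p c
  | k + 1, ω, p, c => (∀ r, ¬ bst G r true ω p c) ∧
      3 ≤ {d | G.Adj c d ∧ d ≠ p ∧ BSG G k ω c d}.ncard

/-- Restriction of a labelling of the rooted 5-ary tree to the subtree at the child `i`. -/
def sh (i : Fin 5) (ω : List (Fin 5) → ℝ) : List (Fin 5) → ℝ := fun l => ω (i :: l)

/-- The status of the root of the rooted 5-ary tree (vertices are lists of elements of `Fin 5`) in
the greedy independent set, known after `r` rounds. -/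
def tst : ℕ → Bool → (List (Fin 5) → ℝ) → Prop
  | 0, _, _ => False
  | r + 1, true, ω => ∀ i, ω [i] < ω [] → tst r false (sh i ω)
  | r + 1, false, ω => ∃ i, ω [i] < ω [] ∧ tst r true (sh i ω)

/-- Survival of the root of the rooted 5-ary tree. -/
def TS : ℕ → (List (Fin 5) → ℝ) → Prop
  | 0, ω => ∀ r, ¬ tst r true ω
  | k + 1, ω => (∀ r, ¬ tst r true ω) ∧ 3 ≤ {i | TS k (sh i ω)}.ncard

/-- The probability that the root of the 5-ary tree is in the greedy independent set and has label
less than `x`. -/
noncomputable def ff (x : ℝ) : ℝ :=
  (P (List (Fin 5))).real {ω | (∃ r, tst r true ω) ∧ ω [] < x}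

/-- The survival probabilities. -/
noncomputable def zz (k : ℕ) : ℝ := (P (List (Fin 5))).real {ω | TS k ω}

end Pool.Agent.Y694.T6
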