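import Pool.Agent.Y694.T6.Stm

/-!
# Basic facts on statuses, release times and colours
-/

set_option autoImplicit false

open MeasureTheory ProbabilityTheory Filter Topology
open scoped ENNReal

namespace Pool.Agent.Y694.T6

variable {V : Type*}

theorem st_succ (G : SimpleGraph V) (ω : V → ℝ) :
    ∀ (r : ℕ) (b : Bool) (v : V), st G r b ω v → st G (r + 1) b ω v := by
  intro r
  induction r with
  | zero => intro b v h; exact absurd h (by cases b <;> simp [st])
  | succ r ih =>
    intro b v h
    cases b with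
    | true =>
      rw [st] at h ⊢
      intro w hw hl
      exact ih false w (h w hw hl)
    | false =>
      rw [st] at h ⊢
      obtain ⟨w, hw, hl, hs⟩ := h
      exact ⟨w, hw, hl, ih true w hs⟩

theorem f_stMono (G : SimpleGraph V) : StMono G := by
  intro r r' b ω v h hs
  induction h with
  | refl => exact hs
  | step _ ih => exact st_succ G ω _ b v ih

theorem st_excl_same (G : SimpleGraph V) (ω : V → ℝ) :
    ∀ (r : ℕ) (v : V), st G r true ω v → st G r false ω v → False := by
  intro r
  induction r with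
  | zero => intro v h; exact absurd h (by simp [st])
  | succ r ih =>
    intro v h1 h2
    have h1' : ∀ w, G.Adj v w → ω w < ω v → st G r false ω w := h1
    obtain ⟨w, hw, hl, hs⟩ := h2
    exact ih w hs (h1' w hw hl)

theorem f_stExcl (G : SimpleGraph V) : StExcl G := by
  intro r r' ω v h1 h2
  exact st_excl_same G ω (max r r') v (f_stMono G r _ true ω v (le_max_left _ _) h1)
    (f_stMono G r' _ false ω v (le_max_right _ _) h2)

/-! ### Release times -/

theorem rt_succ (G : SimpleGraph V) (ω : V → ℝ) (r : ℕ) (v : V) (h : rt G r ω v ≠ 0) :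
    rt G (r + 1) ω v = rt G r ω v := by
  rw [rt, if_pos h]

theorem rt_stable (G : SimpleGraph V) (ω : V → ℝ) {r r' : ℕ} (hr : r ≤ r') (v : V)
    (h : rt G r ω v ≠ 0) : rt G r' ω v = rt G r ω v := by
  induction hr with
  | refl => rfl
  | step _ ih => rw [rt_succ G ω _ v (by rw [ih]; exact h), ih]

theorem rt_le (G : SimpleGraph V) (ω : V → ℝ) (r : ℕ) (v : V) : rt G r ω v ≤ r := by
  induction r with
  | zero => simp [rt]
  | succ r ih =>
    rw [rt]
    split_ifs <;> omega

/-- Information on the round of release. -/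
theorem rt_info (G : SimpleGraph V) (ω : V → ℝ) (r : ℕ) (v : V) (h : rt G r ω v ≠ 0) :
    ∃ s, rt G r ω v = s + 1 ∧ s < r ∧ rt G s ω v = 0 ∧ st G s false ω v ∧
      3 ≤ {w | G.Adj v w ∧ (st G s true ω w ∨ rt G s ω w ≠ 0)}.ncard := by
  induction r with
  | zero => exact absurd rfl h
  | succ r ih =>
    by_cases h0 : rt G r ω v ≠ 0
    · obtain ⟨s, h1, h2, h3⟩ := ih h0
      refine ⟨s, ?_, by omega, h3⟩
      rw [rt_succ G ω r v h0, h1]
    · rw [rt, if_neg h0] at h ⊢
      split_ifs at h ⊢ with h1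
      · exact ⟨r, rfl, by omega, by simpa using h0, h1⟩
      · exact absurd rfl h

theorem st_false_of_rt (G : SimpleGraph V) (ω : V → ℝ) (r : ℕ) (v : V) (h : rt G r ω v ≠ 0) :
    st G r false ω v := by
  obtain ⟨s, _, h2, _, h4, _⟩ := rt_info G ω r v h
  exact f_stMono G s r false ω v h2.le h4

/-! ### Colours -/

/-- The readiness condition. -/
def Ready (G : SimpleGraph V) (r : ℕ) (ω : V → ℝ) (v : V) : Prop :=
  rt G r ω v ≠ 0 ∧ ∀ w, G.Adj v w →
        (st G r true ω w ∨ col G r ω w ≠ 0 ∨
          (rt G r ω w ≠ 0 ∧ (rt G r ω w < rt G r ω v ∨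
            (rt G r ω w = rt G r ω v ∧ ω v < ω w))))

/-- The set of admissible colours. -/
def Allow (G : SimpleGraph V) (r : ℕ) (ω : V → ℝ) (v : V) : Set ℕ :=
  {c | c ≠ 0 ∧ ∀ w, G.Adj v w →
        ((rt G r ω w ≠ 0 ∧ rt G r ω w < rt G r ω v) ∨ col G r ω w ≠ c)}

theorem col_succ_of_ne (G : SimpleGraph V) (ω : V → ℝ) (r : ℕ) (v : V) (h : col G r ω v ≠ 0) :
    col G (r + 1) ω v = col G r ω v := by
  rw [col, if_pos h]

theorem col_succ_of_ready (G : SimpleGraph V) (ω : V → ℝ) (r : ℕ) (v : V) (h : col G r ω v = 0)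
    (hr : Ready G r ω v) : col G (r + 1) ω v = sInf (Allow G r ω v) := by
  rw [col, if_neg (by simpa using h)]
  exact if_pos hr

theorem col_succ_of_not_ready (G : SimpleGraph V) (ω : V → ℝ) (r : ℕ) (v : V)
    (h : col G r ω v = 0) (hr : ¬ Ready G r ω v) : col G (r + 1) ω v = 0 := by
  rw [col, if_neg (by simpa using h)]
  exact if_neg hr

theorem col_stable (G : SimpleGraph V) (ω : V → ℝ) {r r' : ℕ} (hr : r ≤ r') (v : V)
    (h : col G r ω v ≠ 0) : col G r' ω v = col G r ω v := by
  induction hr with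
  | refl => rfl
  | step _ ih => rw [col_succ_of_ne G ω _ v (by rw [ih]; exact h), ih]

/-- Information on the round in which the colour is given. -/
theorem col_info (G : SimpleGraph V) (ω : V → ℝ) (r : ℕ) (v : V) (h : col G r ω v ≠ 0) :
    ∃ s, s < r ∧ col G s ω v = 0 ∧ Ready G s ω v ∧ col G r ω v = sInf (Allow G s ω v) := by
  induction r with
  | zero => exact absurd rfl h
  | succ r ih =>
    by_cases h0 : col G r ω v ≠ 0
    · obtain ⟨s, h1, h2, h3, h4⟩ := ih h0
      exact ⟨s, by omega, h2, h3, by rw [col_succ_of_ne G ω r v h0, h4]⟩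
    · have h0' : col G r ω v = 0 := by simpa using h0
      by_cases hR : Ready G r ω v
      · exact ⟨r, by omega, h0', hR, col_succ_of_ready G ω r v h0' hR⟩
      · exact absurd (col_succ_of_not_ready G ω r v h0' hR) h

theorem rt_of_col (G : SimpleGraph V) (ω : V → ℝ) (r : ℕ) (v : V) (h : col G r ω v ≠ 0) :
    rt G r ω v ≠ 0 := by
  obtain ⟨s, h1, _, h3, _⟩ := col_info G ω r v h
  rw [rt_stable G ω h1.le v h3.1]
  exact h3.1

theorem col_zero_of_st (G : SimpleGraph V) (ω : V → ℝ) (r s : ℕ) (v : V)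
    (h : st G s true ω v) : col G r ω v = 0 := by
  by_contra h0
  exact f_stExcl G s r ω v h (st_false_of_rt G ω r v (rt_of_col G ω r v h0))

/-- At most three colours are forbidden. -/
theorem forbidden_card (G : SimpleGraph V) (hdeg : Deg6 G) (ω : V → ℝ) (r : ℕ) (v : V)
    (h : rt G r ω v ≠ 0) :
    {w | G.Adj v w ∧ ¬ (rt G r ω w ≠ 0 ∧ rt G r ω w < rt G r ω v) ∧ col G r ω w ≠ 0}.ncard ≤ 3 := by
  obtain ⟨s, h1, h2, h3, h4, h5⟩ := rt_info G ω r v h
  have hfin : (G.neighborSet v).Finite := by
    apply Set.finite_of_ncard_ne_zero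
    rw [hdeg v]
    norm_num
  set A := {w | G.Adj v w ∧ (st G s true ω w ∨ rt G s ω w ≠ 0)} with hA
  set B := {w | G.Adj v w ∧ ¬ (rt G r ω w ≠ 0 ∧ rt G r ω w < rt G r ω v) ∧ col G r ω w ≠ 0} with hB
  have hdis : Disjoint A B := by
    rw [Set.disjoint_left]
    rintro w ⟨_, hw⟩ ⟨_, hw2, hw3⟩
    rcases hw with hw | hw
    · exact hw3 (col_zero_of_st G ω r s w hw)
    · apply hw2
      rw [rt_stable G ω h2.le w hw]
      refine ⟨hw, ?_⟩
      have := rt_le G ω s w
      omega
  have hAf : A.Finite := hfin.subset fun w hw => hw.1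
  have hBf : B.Finite := hfin.subset fun w hw => hw.1
  have h6 : A.ncard + B.ncard ≤ 6 := by
    rw [← Set.ncard_union_eq hdis hAf hBf, ← hdeg v]
    apply Set.ncard_le_ncard _ hfin
    rintro w (hw | hw)
    · exact hw.1
    · exact hw.1
  omega

theorem allow_spec (G : SimpleGraph V) (hdeg : Deg6 G) (ω : V → ℝ) (r : ℕ) (v : V)
    (h : rt G r ω v ≠ 0) :
    sInf (Allow G r ω v) ∈ Allow G r ω v ∧ sInf (Allow G r ω v) ≤ 4 := by
  classical
  have hc := forbidden_card G hdeg ω r v h
  set B := {w | G.Adj v w ∧ ¬ (rt G r ω w ≠ 0 ∧ rt G r ω w < rt G r ω v) ∧ col G r ω w ≠ 0} with hB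
  have hfin : (G.neighborSet v).Finite := by
    apply Set.finite_of_ncard_ne_zero
    rw [hdeg v]
    norm_num
  have hBf : B.Finite := hfin.subset fun w hw => hw.1
  have h1 : ∃ c ∈ Finset.Icc 1 4, c ∉ (hBf.toFinset.image fun w => col G r ω w) := by
    by_contra hcon
    push Not at hcon
    have h2 : (Finset.Icc 1 4).card ≤ (hBf.toFinset.image fun w => col G r ω w).card :=
      Finset.card_le_card fun c hc => hcon c hc
    have h3 := Finset.card_image_le (s := hBf.toFinset) (f := fun w => col G r ω w)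
    rw [← Set.ncard_eq_toFinset_card _ hBf] at h3
    simp at h2
    omega
  obtain ⟨c, hc1, hc2⟩ := h1
  rw [Finset.mem_Icc] at hc1
  have hmem : c ∈ Allow G r ω v := by
    refine ⟨by omega, fun w hw => ?_⟩
    by_contra hcon
    rw [not_or, not_not] at hcon
    apply hc2
    rw [Finset.mem_image]
    refine ⟨w, ?_, hcon.2⟩
    rw [Set.Finite.mem_toFinset]
    exact ⟨hw, hcon.1, by rw [hcon.2]; omega⟩
  exact ⟨Nat.sInf_mem ⟨c, hmem⟩, le_trans (Nat.sInf_le hmem) hc1.2⟩

theorem t_colLe (G : SimpleGraph V) (hdeg : Deg6 G) : ColLe G := by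
  intro r ω v
  by_cases h : col G r ω v = 0
  · omega
  · obtain ⟨s, h1, h2, h3, h4⟩ := col_info G ω r v h
    rw [h4]
    exact (allow_spec G hdeg ω s v h3.1).2

theorem t_finMono (G : SimpleGraph V) : FinMono G := by
  intro r r' ω v h hf
  rcases hf with hf | hf
  · exact ⟨Or.inl (f_stMono G r r' true ω v h hf), by
      rw [col_zero_of_st G ω r' r v hf, col_zero_of_st G ω r r v hf]⟩
  · have := col_stable G ω h v hf
    exact ⟨Or.inr (by rw [this]; exact hf), this⟩

/-- One-sided version of properness. -/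
theorem proper_aux (G : SimpleGraph V) (hdeg : Deg6 G) (r r' : ℕ) (ω : V → ℝ) (u v : V)
    (huv : G.Adj u v) (hu : col G r ω u ≠ 0) (hv : col G r' ω v ≠ 0)
    (hlt : ∀ q, max r r' ≤ q → rt G q ω u < rt G q ω v ∨
      (rt G q ω u = rt G q ω v ∧ ω v < ω u)) :
    col G r ω u ≠ col G r' ω v := by
  obtain ⟨s, h1, h2, h3, h4⟩ := col_info G ω r u hu
  have hs := allow_spec G hdeg ω s u h3.1
  have hq := hlt (max r r') le_rfl
  have hru : rt G (max r r') ω u = rt G s ω u :=
    rt_stable G ω (le_trans h1.le (le_max_left _ _)) u h3.1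
  have hnb : ¬ (rt G s ω v ≠ 0 ∧ rt G s ω v < rt G s ω u) := by
    rintro ⟨ha, hb⟩
    have hrv : rt G (max r r') ω v = rt G s ω v :=
      rt_stable G ω (le_trans h1.le (le_max_left _ _)) v ha
    rw [hru, hrv] at hq
    omega
  have hcv : col G s ω v ≠ 0 := by
    rcases h3.2 v huv with h | h | h
    · exact absurd (col_zero_of_st G ω r' s v h) hv
    · exact h
    · obtain ⟨ha, hb⟩ := h
      have hrv : rt G (max r r') ω v = rt G s ω v :=
        rt_stable G ω (le_trans h1.le (le_max_left _ _)) v ha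
      rw [hru, hrv] at hq
      rcases hb with hb | hb
      · omega
      · rcases hq with hq | hq
        · omega
        · exact absurd hq.2 (not_lt.2 hb.2.le)
  have hcv2 : col G r' ω v = col G s ω v := by
    rcases le_total s r' with h | h
    · exact col_stable G ω h v hcv
    · exact (col_stable G ω h v hv).symm
  have := (hs.1.2 v huv).resolve_left hnb
  rw [h4, hcv2]
  exact fun h => this h.symm

theorem t_proper (G : SimpleGraph V) (hdeg : Deg6 G) : Proper G := by
  intro r r' ω u v huv hne hu hv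
  have hst : ∀ (a b : V) (s s' : ℕ), G.Adj a b → ω a < ω b → st G s true ω a →
      st G s' true ω b → False := by
    intro a b s s' hab hl ha hb
    cases s' with
    | zero => exact absurd hb (by simp [st])
    | succ s' =>
      rw [st] at hb
      exact f_stExcl G s s' ω a ha (hb a hab.symm hl)
  rcases hu with hu | hu <;> rcases hv with hv | hv
  · exfalso
    rcases lt_or_gt_of_ne hne with h | h
    · exact hst u v r r' huv h hu hv
    · exact hst v u r' r huv.symm h hv hu
  · rw [col_zero_of_st G ω r r u hu]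
    exact fun h => hv h.symm
  · rw [col_zero_of_st G ω r' r' v hv]
    exact hu
  · have hru := rt_of_col G ω r u hu
    have hrv := rt_of_col G ω r' v hv
    have hstab : ∀ q, max r r' ≤ q → rt G q ω u = rt G r ω u ∧ rt G q ω v = rt G r' ω v :=
      fun q hq => ⟨rt_stable G ω (le_trans (le_max_left _ _) hq) u hru,
        rt_stable G ω (le_trans (le_max_right _ _) hq) v hrv⟩
    by_cases hc : rt G r ω u < rt G r' ω v ∨ (rt G r ω u = rt G r' ω v ∧ ω v < ω u)
    · apply proper_aux G hdeg r r' ω u v huv hu hv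
      intro q hq
      rw [(hstab q hq).1, (hstab q hq).2]
      exact hc
    · have hc' : rt G r' ω v < rt G r ω u ∨ (rt G r' ω v = rt G r ω u ∧ ω u < ω v) := by
        rw [not_or, not_lt, not_and, not_lt] at hc
        rcases hc.1.lt_or_eq with h | h
        · exact Or.inl h
        · exact Or.inr ⟨h, lt_of_le_of_ne (hc.2 h.symm) hne⟩
      intro h
      apply proper_aux G hdeg r' r ω v u huv.symm hv hu _ h.symm
      intro q hq
      rw [max_comm] at hq
      rw [(hstab q hq).1, (hstab q hq).2]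
      exact hc'

end Pool.Agent.Y694.T6
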