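import Pool.Agent.Y694.T6.Facts

/-!
# Bound for unknown statuses, early release, chains
-/

set_option autoImplicit false

open MeasureTheory ProbabilityTheory Filter Topology
open scoped ENNReal

namespace Pool.Agent.Y694.T6

variable {V : Type*}

theorem t_unk (G : SimpleGraph V) (r : ℕ) (ω : V → ℝ) :
    ∀ (v : V), ¬ st G r true ω v → ¬ st G r false ω v →
    ∃ p : ℕ → V, p 0 = v ∧ ∀ i < r, G.Adj (p i) (p (i + 1)) ∧ ω (p (i + 1)) < ω (p i) := by
  induction r with
  | zero => intro v _ _; exact ⟨fun _ => v, rfl, fun i hi => absurd hi (by omega)⟩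
  | succ r ih =>
    intro v h1 h2
    have h1' : ¬ ∀ w, G.Adj v w → ω w < ω v → st G r false ω w := h1
    have h2' : ¬ ∃ w, G.Adj v w ∧ ω w < ω v ∧ st G r true ω w := h2
    push Not at h1' h2'
    obtain ⟨w, hw, hl, hs⟩ := h1'
    obtain ⟨p, hp0, hp⟩ := ih w (h2' w hw hl) hs
    refine ⟨fun i => if i = 0 then v else p (i - 1), by simp, ?_⟩
    intro i hi
    rcases Nat.eq_zero_or_pos i with rfl | hi0
    · simp [hp0, hw, hl]
    · have e1 : i ≠ 0 := by omega
      have e2 : i + 1 - 1 = (i - 1) + 1 := by omega
      have := hp (i - 1) (by omega)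
      simp only [e1, if_false, Nat.add_eq_zero_iff, one_ne_zero, and_false]
      rw [e2]
      exact this

theorem strictAnti_injOn (ω : V → ℝ) (p : ℕ → V) (r : ℕ)
    (h : ∀ i < r, ω (p (i + 1)) < ω (p i)) : Set.InjOn p (Set.Iic r) := by
  have key : ∀ i j, i < j → j ≤ r → ω (p j) < ω (p i) := by
    intro i j hij
    induction hij with
    | refl => intro hj; exact h i (by omega)
    | step _ ih => intro hj; exact lt_trans (h _ (by omega)) (ih (by omega))
  intro i hi j hj hij
  rcases lt_trichotomy i j with h1 | h1 | h1
  · have := key i j h1 hj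
    rw [hij] at this
    exact absurd this (lt_irrefl _)
  · exact h1
  · have := key j i h1 hi
    rw [hij] at this
    exact absurd this (lt_irrefl _)

theorem t_stBound (G : SimpleGraph V) (h : WalkBound G) : StBound G := by
  intro v r
  have h0 := h v r 0
  simp only [Nat.cast_zero, zero_add, mul_one] at h0
  refine le_trans (measure_mono ?_) h0
  rintro ω ⟨h1, h2⟩
  obtain ⟨p, hp0, hp⟩ := t_unk G r ω v h1 h2
  refine ⟨p, hp0, fun i hi => (hp i hi).1, strictAnti_injOn ω p r fun i hi => (hp i hi).2, ?_⟩
  rw [Nat.le_zero, Finset.card_eq_zero, Finset.filter_eq_empty_iff]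
  intro i hi
  rw [Finset.mem_range] at hi
  exact not_le.2 (hp i hi).2

/-! ### Early release -/

theorem hs_zero (G : SimpleGraph V) (ω : V → ℝ) (i : ℕ) (v : V) (h : Hs G i ω v) :
    ∀ r, ¬ st G r true ω v := by
  induction i with
  | zero => exact h
  | succ i ih => exact ih h.1

theorem t_resolved (G : SimpleGraph V) (hc : G.Connected) (hdeg : Deg6 G) : Resolved G := by
  intro ω k j v hst
  have key : ∀ i ≤ j, ∀ u, G.dist v u ≤ j - i → ¬ Hs G i ω u →
      st G (k + i) true ω u ∨ rt G (k + i) ω u ≠ 0 := by
    intro i
    induction i with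
    | zero =>
      intro _ u hu hH
      have hH' : ¬ ∀ r, ¬ st G r true ω u := hH
      push Not at hH'
      obtain ⟨r, hr⟩ := hH'
      rcases hst u (by omega) with h | h
      · exact Or.inl h
      · exact absurd h (fun h => f_stExcl G r k ω u hr h)
    | succ i ih =>
      intro hi u hu hH
      by_cases hHi : Hs G i ω u
      · have hcard : ¬ 4 ≤ {w | G.Adj u w ∧ Hs G i ω w}.ncard := fun h => hH ⟨hHi, h⟩
        have hfin : (G.neighborSet u).Finite := by
          apply Set.finite_of_ncard_ne_zero
          rw [hdeg u]
          norm_num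
        right
        have hle : k + (i + 1) = (k + i) + 1 := by ring
        rw [hle]
        by_cases h0 : rt G (k + i) ω u ≠ 0
        · rw [rt_succ G ω _ u h0]
          exact h0
        rw [rt, if_neg h0, if_pos]
        · omega
        constructor
        · rcases hst u (by omega) with h | h
          · exact absurd h (hs_zero G ω i u hHi k)
          · exact f_stMono G k (k + i) false ω u (by omega) h
        · have hsub : {w | G.Adj u w} ⊆ {w | G.Adj u w ∧ Hs G i ω w} ∪
              {w | G.Adj u w ∧ (st G (k + i) true ω w ∨ rt G (k + i) ω w ≠ 0)} := by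
            intro w hw
            by_cases hHw : Hs G i ω w
            · exact Or.inl ⟨hw, hHw⟩
            · refine Or.inr ⟨hw, ih (by omega) w ?_ hHw⟩
              have h1 : G.dist v w ≤ G.dist v u + G.dist u w := hc.dist_triangle
              have h2 : G.dist u w = 1 := SimpleGraph.dist_eq_one_iff_adj.2 hw
              omega
          have hA : ({w | G.Adj u w ∧ Hs G i ω w} : Set V).Finite := hfin.subset fun w hw => hw.1
          have hB : ({w | G.Adj u w ∧ (st G (k + i) true ω w ∨ rt G (k + i) ω w ≠ 0)} :
              Set V).Finite := hfin.subset fun w hw => hw.1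
          have h1 := Set.ncard_le_ncard hsub (hA.union hB)
          have h2 := Set.ncard_union_le {w | G.Adj u w ∧ Hs G i ω w}
            {w | G.Adj u w ∧ (st G (k + i) true ω w ∨ rt G (k + i) ω w ≠ 0)}
          have h3 : ({w | G.Adj u w} : Set V).ncard = 6 := hdeg u
          omega
      · rcases ih (by omega) u (by omega) hHi with h | h
        · exact Or.inl (f_stMono G _ _ true ω u (by omega) h)
        · right
          rw [rt_stable G ω (by omega) u h]
          exact h
  intro hH
  exact key j le_rfl v (by rw [SimpleGraph.dist_self]; omega) hH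

end Pool.Agent.Y694.T6
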