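import Pool.Agent.Y694.T6.Defs

/-!
# Statements of the steps (propositions only, nothing is assumed)
-/

set_option autoImplicit false

open MeasureTheory ProbabilityTheory Filter Topology
open scoped ENNReal

namespace Pool.Agent.Y694.T6

variable {V : Type*}

/-- Every vertex has exactly six neighbours. -/
def Deg6 (G : SimpleGraph V) : Prop := ∀ v, (G.neighborSet v).ncard = 6

/-! ### Paths -/

def AscBound : Prop := ∀ n k : ℕ,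
  (Measure.pi fun _ : Fin (n + 1) => lab)
      {w | (Finset.univ.filter fun i : Fin n => w i.castSucc ≤ w i.succ).card ≤ k} ≤
    ENNReal.ofReal (((k : ℝ) + 1) ^ n / n.factorial)

def LawComp (V W : Type*) : Prop := ∀ f : W → V, Function.Injective f →
  (P V).map (fun ω => ω ∘ f) = P W

/-- `p 0, p 1, ..., p n` is an injective walk from `v` along which the labels have at most `k`
weak ascents. -/
def FewAsc (G : SimpleGraph V) (v : V) (n k : ℕ) (ω : V → ℝ) (p : ℕ → V) : Prop :=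
  p 0 = v ∧ (∀ i < n, G.Adj (p i) (p (i + 1))) ∧ Set.InjOn p (Set.Iic n) ∧
    ((Finset.range n).filter fun i => ω (p i) ≤ ω (p (i + 1))).card ≤ k

def WalkBound (G : SimpleGraph V) : Prop := ∀ (v : V) (n k : ℕ),
  P V {ω | ∃ p : ℕ → V, FewAsc G v n k ω p} ≤
    ENNReal.ofReal ((6 * ((k : ℝ) + 1)) ^ n / n.factorial)

/-! ### Statuses -/

def StMono (G : SimpleGraph V) : Prop := ∀ (r r' : ℕ) (b : Bool) (ω : V → ℝ) (v : V),
  r ≤ r' → st G r b ω v → st G r' b ω v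

def StExcl (G : SimpleGraph V) : Prop := ∀ (r r' : ℕ) (ω : V → ℝ) (v : V),
  st G r true ω v → st G r' false ω v → False

def StBound (G : SimpleGraph V) : Prop := ∀ (v : V) (r : ℕ),
  P V {ω | ¬ st G r true ω v ∧ ¬ st G r false ω v} ≤ ENNReal.ofReal (6 ^ r / r.factorial)

/-! ### Colours -/

def ColLe (G : SimpleGraph V) : Prop := ∀ (r : ℕ) (ω : V → ℝ) (v : V), col G r ω v ≤ 4

def FinMono (G : SimpleGraph V) : Prop := ∀ (r r' : ℕ) (ω : V → ℝ) (v : V),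
  r ≤ r' → fin G r ω v → fin G r' ω v ∧ col G r' ω v = col G r ω v

def Proper (G : SimpleGraph V) : Prop := ∀ (r r' : ℕ) (ω : V → ℝ) (u v : V),
  G.Adj u v → ω u ≠ ω v → fin G r ω u → fin G r' ω v → col G r ω u ≠ col G r' ω v

def Chain (G : SimpleGraph V) : Prop := ∀ (k m : ℕ) (ω : V → ℝ) (v : V),
  (∀ u, G.dist v u ≤ m → st G k true ω u ∨ rt G k ω u ≠ 0) →
  (∀ a b, G.Adj a b → ω a ≠ ω b) → ¬ fin G (k + m + 1) ω v →
  ∃ p : ℕ → V, FewAsc G v m k ω p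

/-! ### Locality and measurability -/

def BallMono (G : SimpleGraph V) : Prop := ∀ (r r' : ℕ) (ω ω' : V → ℝ) (v v' : V) (φ : V → V),
  r ≤ r' → BallIso G r' ω ω' v v' φ → BallIso G r ω ω' v v' φ

def Loc (G : SimpleGraph V) : Prop := ∀ (r : ℕ) (ω ω' : V → ℝ) (v v' : V) (φ : V → V),
  BallIso G r ω ω' v v' φ →
    (∀ b, st G r b ω v ↔ st G r b ω' v') ∧ rt G r ω v = rt G r ω' v' ∧
      col G r ω v = col G r ω' v'

def Meas (G : SimpleGraph V) : Prop := ∀ (r : ℕ) (v : V),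
  (∀ b, MeasurableSet {ω : V → ℝ | st G r b ω v}) ∧
    Measurable (fun ω : V → ℝ => rt G r ω v) ∧ Measurable (fun ω : V → ℝ => col G r ω v)

/-! ### The 5-ary tree -/

def SelfSim : Prop :=
  MeasurePreserving (fun ω : List (Fin 5) → ℝ => (ω [], fun i : Fin 5 => sh i ω))
    (P (List (Fin 5))) (lab.prod (Measure.pi fun _ : Fin 5 => P (List (Fin 5))))

def TstIn : Prop := ∀ ω : List (Fin 5) → ℝ,
  (∃ r, tst r true ω) ↔ ∀ i, ω [i] < ω [] → ∃ r, tst r false (sh i ω)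

def TstOut : Prop := ∀ ω : List (Fin 5) → ℝ,
  (∃ r, tst r false ω) ↔ ∃ i, ω [i] < ω [] ∧ ∃ r, tst r true (sh i ω)

def TstExcl : Prop := ∀ (r r' : ℕ) (ω : List (Fin 5) → ℝ),
  tst r true ω → tst r' false ω → False

def TstMeas : Prop := ∀ (r : ℕ) (b : Bool), MeasurableSet {ω : List (Fin 5) → ℝ | tst r b ω}

def TSMeas : Prop := ∀ k : ℕ, MeasurableSet {ω : List (Fin 5) → ℝ | TS k ω}

def TstAe : Prop :=
  ∀ᵐ ω ∂(P (List (Fin 5))), (∃ r, tst r true ω) ∨ ∃ r, tst r false ω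

def FfEq : Prop := Monotone ff ∧ (∀ x, 0 ≤ ff x) ∧ (∀ x, ff x ≤ 1) ∧
  ∀ x ∈ Set.Icc (0 : ℝ) 1, ff x = ∫ y in (0 : ℝ)..x, (1 - ff y) ^ 5

def Ode : Prop := ∀ f : ℝ → ℝ, Monotone f → (∀ x, 0 ≤ f x) → (∀ x, f x ≤ 1) →
  (∀ x ∈ Set.Icc (0 : ℝ) 1, f x = ∫ y in (0 : ℝ)..x, (1 - f y) ^ 5) →
  331 / 1000 ≤ f 1 ∧ ∫ y in (0 : ℝ)..1, f y ≤ 219 / 1000

def ZzRec : Prop := zz 0 = 1 - ff 1 ∧
  ∀ k, zz (k + 1) ≤ 5 * (∫ y in (0 : ℝ)..1, ff y) * (4 * zz k ^ 3 - 3 * zz k ^ 4)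

def Num : Prop := ∀ (z : ℕ → ℝ) (F : ℝ), 0 ≤ F → F ≤ 219 / 1000 →
  (∀ k, 0 ≤ z k) → (∀ k, z k ≤ 1) → z 0 ≤ 669 / 1000 →
  (∀ k, z (k + 1) ≤ 5 * F * (4 * z k ^ 3 - 3 * z k ^ 4)) →
  ∀ C : ℝ, ∀ᶠ k : ℕ in atTop, z k ≤ Real.exp (-C * k)

/-! ### Embedding of the branches -/

/-- `φ p c` maps the 5-ary tree injectively to the branch at `c` away from `p`. -/
def Emb (G : SimpleGraph V) (ch : V → V → Fin 5 → V) (φ : V → V → List (Fin 5) → V) : Prop :=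
  (∀ p c, φ p c [] = c) ∧ (∀ p c i l, φ p c (i :: l) = φ c (ch p c i) l) ∧
    (∀ p c, G.Adj p c → Function.Injective (ch p c) ∧
      Set.range (ch p c) = {d | G.Adj c d ∧ d ≠ p}) ∧
    (∀ p c, G.Adj p c → Function.Injective (φ p c))

def EmbEx (G : SimpleGraph V) : Prop :=
  ∃ (ch : V → V → Fin 5 → V) (φ : V → V → List (Fin 5) → V), Emb G ch φ

def BsgLe (G : SimpleGraph V) : Prop := ∀ (k : ℕ) (p c : V), G.Adj p c →
  P V {ω | BSG G k ω p c} ≤ P (List (Fin 5)) {ω | TS k ω}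

/-! ### Peeling -/

def HsBsg (G : SimpleGraph V) : Prop := ∀ (ω : V → ℝ),
  (∀ v, (∃ r, st G r true ω v) ∨ ∃ r, st G r false ω v) →
  ∀ (k : ℕ) (v : V), Hs G (k + 1) ω v → ∃ c, G.Adj v c ∧ BSG G k ω v c

def Resolved (G : SimpleGraph V) : Prop := ∀ (ω : V → ℝ) (k j : ℕ) (v : V),
  (∀ u, G.dist v u ≤ j → st G k true ω u ∨ st G k false ω u) →
  ¬ Hs G j ω v → st G (k + j) true ω v ∨ rt G (k + j) ω v ≠ 0

/-! ### Union bound over balls, ties -/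

def BallUnion (G : SimpleGraph V) : Prop := ∀ (Q : (V → ℝ) → V → Prop) (a : ℝ≥0∞),
  (∀ u, P V {ω | Q ω u} ≤ a) → ∀ (v : V) (m : ℕ),
  P V {ω | ∃ u, G.dist v u ≤ m ∧ Q ω u} ≤ 7 ^ m * a

def NoTies (V : Type*) : Prop := ∀ᵐ ω ∂(P V), ∀ u v : V, u ≠ v → ω u ≠ ω v

/-! ### Asymptotics -/

def Asy : Prop := ∀ z : ℕ → ℝ, (∀ k, 0 ≤ z k) →
  (∀ C : ℝ, ∀ᶠ k : ℕ in atTop, z k ≤ Real.exp (-C * k)) →
  ∀ C : ℝ, ∀ᶠ r : ℕ in atTop, ∃ m k j : ℕ, r = (k + (j + 1)) + m + 1 ∧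
    7 ^ m * (7 ^ (j + 1) * (6 ^ k / (k.factorial : ℝ)) + 6 * z j) +
      (6 * (((k + (j + 1) : ℕ) : ℝ) + 1)) ^ m / (m.factorial : ℝ) ≤ Real.exp (-C * r)

def Teps : Prop := ∀ q : ℕ → ℝ, (∀ C : ℝ, ∀ᶠ r : ℕ in atTop, q r ≤ Real.exp (-C * r)) →
  ∃ t : ℝ → ℕ, (∀ ε : ℝ, 0 < ε → q (t ε) ≤ ε) ∧
    (fun ε => (t ε : ℝ)) =o[𝓝[>] 0] fun ε => Real.log ε⁻¹

/-! ### Existence of the 6-regular tree -/

def TreeEx : Prop := ∃ (V : Type) (G : SimpleGraph V), G.IsTree ∧ Deg6 G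

end Pool.Agent.Y694.T6
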