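import Pool.Agent.Y694.T6.Stm

/-!
# Tail estimate of the coding radius and final assembly (from the steps)
-/

set_option autoImplicit false

open MeasureTheory ProbabilityTheory Filter Topology
open scoped ENNReal

namespace Pool.Agent.Y694.T6

variable {V : Type*}

/-- The event that all statuses are eventually known has probability one. -/
theorem ae_det (G : SimpleGraph V) [Countable V] (hS : StBound G) :
    ∀ᵐ ω ∂(P V), ∀ v, (∃ r, st G r true ω v) ∨ ∃ r, st G r false ω v := by
  rw [ae_all_iff]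
  intro v
  rw [ae_iff]
  have h0 : Tendsto (fun r : ℕ => ENNReal.ofReal ((6 : ℝ) ^ r / r.factorial)) atTop
      (𝓝 (ENNReal.ofReal 0)) :=
    ENNReal.tendsto_ofReal (FloorSemiring.tendsto_pow_div_factorial_atTop 6)
  rw [ENNReal.ofReal_zero] at h0
  refine le_antisymm (ge_of_tendsto' h0 fun r => ?_) (by simp)
  refine le_trans (measure_mono ?_) (hS v r)
  intro ω hω
  simp only [Set.mem_ofPred_eq, not_or, not_exists] at hω ⊢
  exact ⟨hω.1 r, hω.2 r⟩

/-- Probability of survival. -/
theorem hs_bound (G : SimpleGraph V) (hdeg : Deg6 G) [Countable V] (hS : StBound G)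
    (hH : HsBsg G) (hB : BsgLe G) (v : V) (j : ℕ) :
    P V {ω | Hs G (j + 1) ω v} ≤ 6 * ENNReal.ofReal (zz j) := by
  have hfin : (G.neighborSet v).Finite := by
    apply Set.finite_of_ncard_ne_zero
    rw [hdeg v]
    norm_num
  have hz : ENNReal.ofReal (zz j) = P (List (Fin 5)) {ω | TS j ω} := by
    rw [zz, ofReal_measureReal]
  calc P V {ω | Hs G (j + 1) ω v}
      ≤ P V (⋃ c ∈ hfin.toFinset, {ω | BSG G j ω v c}) := by
        apply measure_mono_ae
        filter_upwards [ae_det G hS] with ω hω hs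
        obtain ⟨c, hc, hb⟩ := hH ω hω j v hs
        exact Set.mem_biUnion (x := c) (by simpa using hc) hb
    _ ≤ ∑ c ∈ hfin.toFinset, P V {ω | BSG G j ω v c} := measure_biUnion_finset_le _ _
    _ ≤ ∑ _c ∈ hfin.toFinset, ENNReal.ofReal (zz j) := by
        apply Finset.sum_le_sum
        intro c hc
        rw [hz]
        exact hB j v c (by simpa using hc)
    _ = 6 * ENNReal.ofReal (zz j) := by
        rw [Finset.sum_const, ← Set.ncard_eq_toFinset_card _ hfin, hdeg v]
        simp

/-- Probability that a vertex is not resolved early. -/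
theorem unres_bound (G : SimpleGraph V) (hdeg : Deg6 G) [Countable V] (hS : StBound G)
    (hH : HsBsg G) (hB : BsgLe G) (hR : Resolved G) (hU : BallUnion G) (v : V) (k j : ℕ) :
    P V {ω | ¬ (st G (k + (j + 1)) true ω v ∨ rt G (k + (j + 1)) ω v ≠ 0)} ≤
      7 ^ (j + 1) * ENNReal.ofReal (6 ^ k / k.factorial) + 6 * ENNReal.ofReal (zz j) := by
  calc P V {ω | ¬ (st G (k + (j + 1)) true ω v ∨ rt G (k + (j + 1)) ω v ≠ 0)}
      ≤ P V ({ω | ∃ u, G.dist v u ≤ j + 1 ∧ (¬ st G k true ω u ∧ ¬ st G k false ω u)} ∪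
          {ω | Hs G (j + 1) ω v}) := by
        apply measure_mono
        intro ω hω
        by_contra hcon
        simp only [Set.mem_union, Set.mem_ofPred_eq, not_or, not_exists, not_and, not_not] at hcon
        apply hω
        apply hR ω k (j + 1) v _ hcon.2
        intro u hu
        by_cases h1 : st G k true ω u
        · exact Or.inl h1
        · exact Or.inr (hcon.1 u hu h1)
    _ ≤ _ := le_trans (measure_union_le _ _) (add_le_add
        (hU (fun ω u => ¬ st G k true ω u ∧ ¬ st G k false ω u) _ (fun u => hS u k) v (j + 1))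
        (hs_bound G hdeg hS hH hB v j))

/-- The tail bound. -/
theorem tail_bound (G : SimpleGraph V) (hdeg : Deg6 G) [Countable V] (hS : StBound G)
    (hH : HsBsg G) (hB : BsgLe G) (hR : Resolved G) (hU : BallUnion G) (hC : Chain G)
    (hN : NoTies V) (hW : WalkBound G) (v : V) (m k j : ℕ) :
    P V {ω | ¬ fin G (k + (j + 1) + m + 1) ω v} ≤
      ENNReal.ofReal (7 ^ m * (7 ^ (j + 1) * (6 ^ k / (k.factorial : ℝ)) + 6 * zz j) +
      (6 * (((k + (j + 1) : ℕ) : ℝ) + 1)) ^ m / (m.factorial : ℝ)) := by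
  have hz : 0 ≤ zz j := measureReal_nonneg
  have e1 : ENNReal.ofReal (7 ^ m * (7 ^ (j + 1) * (6 ^ k / (k.factorial : ℝ)) + 6 * zz j) +
      (6 * (((k + (j + 1) : ℕ) : ℝ) + 1)) ^ m / (m.factorial : ℝ)) =
      7 ^ m * (7 ^ (j + 1) * ENNReal.ofReal (6 ^ k / k.factorial) + 6 * ENNReal.ofReal (zz j)) +
      ENNReal.ofReal ((6 * (((k + (j + 1) : ℕ) : ℝ) + 1)) ^ m / (m.factorial : ℝ)) := by
    rw [ENNReal.ofReal_add (by positivity) (by positivity), ENNReal.ofReal_mul (by positivity),
      ENNReal.ofReal_add (by positivity) (by positivity), ENNReal.ofReal_mul (by positivity),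
      ENNReal.ofReal_mul (by positivity), ENNReal.ofReal_pow (by positivity),
      ENNReal.ofReal_pow (by positivity)]
    norm_num
  rw [e1]
  calc P V {ω | ¬ fin G (k + (j + 1) + m + 1) ω v}
      ≤ P V ({ω | ∃ u, G.dist v u ≤ m ∧
            ¬ (st G (k + (j + 1)) true ω u ∨ rt G (k + (j + 1)) ω u ≠ 0)} ∪
          {ω | ∃ p : ℕ → V, FewAsc G v m (k + (j + 1)) ω p}) := by
        apply measure_mono_ae
        filter_upwards [hN] with ω hω hf
        by_contra hcon
        have hcon' : ¬ (ω ∈ {ω | ∃ u, G.dist v u ≤ m ∧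
            ¬ (st G (k + (j + 1)) true ω u ∨ rt G (k + (j + 1)) ω u ≠ 0)} ∪
          {ω | ∃ p : ℕ → V, FewAsc G v m (k + (j + 1)) ω p}) := hcon
        simp only [Set.mem_union, Set.mem_ofPred_eq, not_or] at hcon'
        apply hcon'.2
        apply hC (k + (j + 1)) m ω v _ _ hf
        · intro u hu
          by_contra h
          exact hcon'.1 ⟨u, hu, by simpa [not_or] using h⟩
        · intro a b hab
          exact hω a b hab.ne
    _ ≤ _ := le_trans (measure_union_le _ _) (add_le_add
        (hU (fun ω u => ¬ (st G (k + (j + 1)) true ω u ∨ rt G (k + (j + 1)) ω u ≠ 0)) _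
          (fun u => unres_bound G hdeg hS hH hB hR hU u k j) v m)
        (hW v m _))

end Pool.Agent.Y694.T6
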